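import Pool.Agent.Lib.RD7.Field
import Pool.Agent.Lib.HP.B_HAT46
import Pool.Agent.Lib.HP.B_NTA

set_option autoImplicit false

open Set Filter Topology MeasureTheory Real
open scoped ENNReal ContDiff SchwartzMap FourierTransform

noncomputable section

namespace Pool.Agent.RD7

open Pool.Agent.HP Pool.Agent.RZ CRU

variable {n : ℕ} {f g : E n → ℂ}

lemma mem_comp (hf : MemLp f 2) (O : OG n) : MemLp (fun x => f (O x)) 2 :=
  hf.comp_measurePreserving O.measurePreserving

lemma hat_comp (hf : IsHat f g) (O : OG n) : IsHat (fun x => f (O x)) (fun ξ => g (O ξ)) := by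
  refine ⟨mem_comp hf.1 O, mem_comp hf.2.1 O, fun ψ => ?_⟩
  have h := (st_HAT46 n).2.2.2.1 f g (ψ ∘ O.symm) hf
    (O.symm.measurePreserving.integrable_comp_of_integrable ψ.integrable)
    (mem_comp (ψ.memLp 2 volume) O.symm)
  rw [← O.measurePreserving.integral_comp O.toHomeomorph.measurableEmbedding,
    ← O.measurePreserving.integral_comp O.toHomeomorph.measurableEmbedding
      fun ξ => g ξ * (ψ ∘ O.symm) ξ] at h
  simpa only [Real.fourier_comp_linearIsometry, Function.comp_apply, O.symm_apply_apply] using h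

lemma hat_sum {κ : Type} [Fintype κ] {F G : κ → E n → ℂ} (h : ∀ k, IsHat (F k) (G k)) (c : κ → ℂ) :
    IsHat (fun x => ∑ k, c k * F k x) (fun ξ => ∑ k, c k * G k ξ) := by
  refine ⟨memLp_finsetSum _ fun k _ => (h k).1.const_mul _,
    memLp_finsetSum _ fun k _ => (h k).2.1.const_mul _, fun ψ => ?_⟩
  simp only [Finset.sum_mul, mul_assoc]
  rw [integral_finsetSum, integral_finsetSum]
  · simp only [integral_const_mul, (h _).2.2 ψ]
  exacts [fun k _ => ((h k).2.1.integrable_mul (ψ.memLp 2 volume)).const_mul _,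
    fun k _ => ((h k).1.integrable_mul (memLp_fourier ψ)).const_mul _]

lemma hat_uniq {f' g' : E n → ℂ} (h : IsHat f g) (h' : IsHat f' g') (e : f =ᵐ[volume] f') :
    g =ᵐ[volume] g' := by
  have h1 := (st_HAT46 n).2.2.2.2 f g f' g' h h'
  have h2 := (st_HAT46 n).2.1 _ _ h1
  rw [eLpNorm_congr_ae (g := 0) (e.mono fun x hx => sub_eq_zero.2 hx), eLpNorm_zero, eq_comm,
    eLpNorm_eq_zero_iff h1.2.1.1 two_ne_zero] at h2
  exact h2.mono fun x hx => sub_eq_zero.1 hx

/-- matrix entries of the action on the half space -/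
def en : Option (Fin n) → Option (Fin n) → OG n → ℂ
  | none, none => fun _ => 1
  | some l, some m => ent l m
  | none, some _ => fun _ => 0
  | some _, none => fun _ => 0

lemma good_en : ∀ l m : Option (Fin n), Good (en l m)
  | none, none => good_const 1
  | some l, some m => good_ent l m
  | none, some _ => good_const 0
  | some _, none => good_const 0

lemma norm_en (O : OG n) : ∀ l m : Option (Fin n), ‖en l m O‖ ≤ 1
  | none, none => norm_one.le
  | some l, some m => norm_ent l m O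
  | none, some _ => norm_zero.trans_le zero_le_one
  | some _, none => norm_zero.trans_le zero_le_one

lemma gs_comp (g : E n → ℂ) (O : OG n) (l : Option (Fin n)) (ξ : E n) :
    gs g l (O ξ) = ∑ m, en l m O * gs (fun η => g (O η)) m ξ := by
  rcases l with _ | l
  · simp [en, gs]
  · simp only [Fintype.sum_option, en, gs, rs, zero_mul, zero_add, O.norm_map,
      EuclideanSpace.inner_single_right, one_mul, conj_trivial, apply_eq, Finset.mul_sum,
      Finset.sum_div, Finset.sum_mul]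
    exact Finset.sum_congr rfl fun m _ => by ring

lemma J_rot (hg : MemLp g 2) (O : OG n) (l : Option (Fin n)) (x : E n) {t : ℝ} (ht : 0 < t) :
    J (gs g l) (O x, t) = ∑ m, en l m O * J (gs (fun η => g (O η)) m) (x, t) := by
  rw [← J_comp]
  exact J_sum (fun m => HP.memLp_gs (mem_comp hg O) m) _ (ae_of_all _ (gs_comp g O l)) ht

/-- functions whose restrictions to spheres about the origin are polynomials of degree `≤ k` -/
def Deg (k : ℕ) (f : E n → ℂ) : Prop :=
  ∃ P : ℝ → MvPolynomial (Fin n) ℂ, (∀ r, (P r).totalDegree ≤ k) ∧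
    ∀ᵐ x, f x = MvPolynomial.eval (fun l => (x l : ℂ)) (P ‖x‖)

theorem frame (n k : ℕ) : ∃ (ι : Type) (_ : Fintype ι) (Q : ι → OG n) (a : ι → OG n → ℂ) (j : ι),
    (∀ x, Q j x = x) ∧ (∀ j, Good (a j)) ∧ ∀ f g : E n → ℂ, IsHat f g → Deg k f → ∀ O : OG n,
      (fun ξ => g (O ξ)) =ᵐ[volume] fun ξ => ∑ j, a j O * g (Q j ξ) := by
  obtain ⟨s, a, h1, h2⟩ := exists_frame n k
  refine ⟨Option s, inferInstance, fun o => o.elim (LinearIsometryEquiv.refl ℝ _) Subtype.val,
    fun o => o.elim (fun _ => 0) a, none, fun _ => rfl, ?_, ?_⟩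
  · rintro (_ | j)
    exacts [good_const 0, h1 j]
  rintro f g hf ⟨P, hP, e⟩ O
  simp only [Fintype.sum_option, Option.elim_none, Option.elim_some, zero_mul, zero_add]
  refine hat_uniq (hat_comp hf O) (hat_sum (fun j : s => hat_comp hf j) _) ?_
  have e1 := fun O : OG n => O.measurePreserving.quasiMeasurePreserving.ae e
  filter_upwards [e1 O, ae_all_iff.2 fun j : s => e1 j] with x hx hx'
  simp only [hx, hx', LinearIsometryEquiv.norm_map]
  exact h2 _ (hP _) x O

theorem exists_sl (i : Fin n) (k : ℕ) : ∃ (ι : Type) (_ : Fintype ι) (Q : ι → OG n) (j : ι) (K : ℝ),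
    (∀ x, Q j x = x) ∧ 1 ≤ K ∧ ∀ f g : E n → ℂ, IsHat f g → Deg k f →
      Sl i K (pk (uu i fun j ξ => g (Q j ξ))) (pk (vv fun j ξ => g (Q j ξ))) := by
  obtain ⟨ι, _, Q, a, j, hj, ha, h⟩ := frame n k
  obtain ⟨K, hK, h1⟩ := sl_of i (fun α β => en α.2 β.2 * fun O => a β.1 (O.trans (Q α.1)))
    fun α β => (good_en _ _).mul
      ⟨(ha β.1).1.imp fun B hB O => hB _, fun i l O => (ha β.1).2 i l (O.trans (Q α.1))⟩
  refine ⟨ι, inferInstance, Q, j, K, hj, hK, fun f g hf hd => h1 _ (fun j => mem_comp hf.2.1 _)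
    fun α O x t ht => ?_⟩
  rw [ww, J_rot (mem_comp hf.2.1 _) O _ x ht, Fintype.sum_prod_type_right]
  refine Finset.sum_congr rfl fun m _ => ?_
  rw [J_sum (X := (x, t)) (fun j => HP.memLp_gs (mem_comp hf.2.1 (Q j)) m)
    (fun j => a j (O.trans (Q α.1))) ?_ ht, Finset.mul_sum]
  · exact Finset.sum_congr rfl fun j _ => (mul_assoc _ _ _).symm
  · filter_upwards [h f g hf hd (O.trans (Q α.1))] with ξ hξ
    simp only [gs_eq, mul_left_comm _ (sy m ξ), ← Finset.mul_sum, ← hξ]
    rfl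

/-- pointwise bound for the Poisson integral by rotated copies of the conjugate system -/
theorem pois (hn : 1 ≤ n) (k : ℕ) {q a : ℝ} (hq : 0 < q) (hq1 : q ≤ 1) (ha : 0 ≤ a) :
    ∃ (κ : Type) (_ : Fintype κ) (Q : κ → OG n) (C : ℝ), 0 ≤ C ∧
      ∀ f g : E n → ℂ, IsHat f g → Deg k f → ∀ ε : ℝ, 0 < ε → ∀ (x y : E n) (t : ℝ), 0 < t →
        ‖T po g (y, ε + t)‖ₑ ^ q ≤ ENNReal.ofReal (C * (1 + ‖y - x‖ / t) ^ a) *
          KM a (fun z => ∑ p : κ × Option (Fin n),
            ‖T po (fun ξ => gs g p.2 (Q p.1 ξ)) (z, ε)‖ₑ ^ q) x := by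
  obtain ⟨ι, _, Q, j, K, hj, hK, h⟩ := exists_sl ⟨0, hn⟩ k
  obtain ⟨C, hC, h1⟩ := thmA (a := a) ⟨0, hn⟩ hK (half_pos hq) (by linarith) ha
  refine ⟨ι × Option (Fin n), inferInstance, fun p => Q p.1, C, hC,
    fun f g hf hd ε hε x y t ht => ?_⟩
  have h2 := h1 _ _ _ (h f g hf hd) ε hε x y t ht
  have e : ∀ r : ℝ, 0 ≤ r → (r ^ 2) ^ (q / 2) = r ^ q := fun r hr => by
    rw [← Real.rpow_natCast, ← Real.rpow_mul hr]; congr 1; push_cast; ring
  simp only [PP_eq, e _ (norm_nonneg _), NTA.ofReal_eq _ hq] at h2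
  refine le_trans (ENNReal.rpow_le_rpow ?_ hq.le) (h2.trans (mul_le_mul_right
    (KM_mono_ae a (ae_of_all _ fun z => ?_) x) _))
  · rw [T_eq _ (add_pos hε ht), enorm_le_iff_norm_le]
    refine le_trans (le_of_eq ?_) (PiLp.norm_apply_le _ (j, none))
    simp only [pk, ww, gs, hj]
  refine le_trans (ENNReal.rpow_le_rpow ?_ hq.le) (NTA.rpow_sum_le _ _ hq hq1)
  simp only [← ofReal_norm]
  rw [← ENNReal.ofReal_sum_of_nonneg fun _ _ => norm_nonneg _, Fintype.sum_prod_type]
  refine ENNReal.ofReal_le_ofReal (le_trans ?_ (Finset.sum_le_sum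
    (f := fun α => ‖ww (fun j ξ => g (Q j ξ)) α (z, ε)‖) fun α _ => ?_))
  · rw [PiLp.norm_eq_of_L2]
    exact Real.sqrt_le_iff.2 ⟨Finset.sum_nonneg fun _ _ => norm_nonneg _,
      Finset.sum_sq_le_sq_sum_of_nonneg fun _ _ => norm_nonneg _⟩
  · have h3 := J_rot (mem_comp hf.2.1 (Q α.1)) (Q α.1).symm α.2 (Q α.1 z) hε
    simp only [LinearIsometryEquiv.symm_apply_apply, LinearIsometryEquiv.apply_symm_apply] at h3
    rw [ww, h3]
    refine (norm_sum_le _ _).trans (Finset.sum_le_sum fun m _ => ?_)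
    rw [T_eq _ hε, J_comp, norm_mul]
    exact mul_le_of_le_one_left (norm_nonneg _) (norm_en _ _ _)

end Pool.Agent.RD7
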