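import Pool.Agent.Lib.HP.Base

set_option autoImplicit false

open Set Filter Topology
open scoped RealInnerProductSpace

noncomputable section

namespace Pool.Agent.RD7

open Pool.Agent.HP

lemma unisolvent {G : Type} (W : Submodule ℂ (G → ℂ)) [FiniteDimensional ℂ W] :
    ∃ (s : Finset G) (a : s → G → ℂ), (∀ j, a j ∈ W) ∧
      ∀ Q ∈ W, ∀ O, Q O = ∑ j : s, a j O * Q j := by
  classical
  let Φ : ∀ s : Finset G, W →ₗ[ℂ] (s → ℂ) := fun s =>
    LinearMap.pi fun j => (LinearMap.proj j.1).comp W.subtype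
  obtain ⟨_, ⟨s, rfl⟩, hs⟩ := (wellFounded_lt (α := Submodule ℂ W)).has_min
    (range fun s => LinearMap.ker (Φ s)) (range_nonempty _)
  have h0 : LinearMap.ker (Φ s) = ⊥ := by
    refine (Submodule.eq_bot_iff _).2 fun Q hQ => Subtype.ext (funext fun O => ?_)
    have h1 : LinearMap.ker (Φ (insert O s)) ≤ LinearMap.ker (Φ s) := fun R hR =>
      funext fun j => congrFun hR ⟨j.1, Finset.mem_insert_of_mem j.2⟩
    have h2 := h1.eq_of_not_lt (hs _ ⟨_, rfl⟩)
    exact congrFun (h2.ge hQ) ⟨O, Finset.mem_insert_self _ _⟩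
  obtain ⟨Ψ, hΨ⟩ := (Φ s).exists_leftInverse_of_injective h0
  refine ⟨s, fun j => Ψ (Pi.single j 1), fun j => (Ψ _).2, fun Q hQ O => ?_⟩
  have h3 : Ψ (Φ s ⟨Q, hQ⟩) = ⟨Q, hQ⟩ := LinearMap.congr_fun hΨ _
  rw [← Finset.univ_sum_single (Φ s ⟨Q, hQ⟩), map_sum] at h3
  have h4 := congrFun (congrArg Subtype.val h3) O
  rw [Submodule.coe_sum, Finset.sum_apply] at h4
  refine h4.symm.trans (Finset.sum_congr rfl fun j _ => ?_)
  rw [show Pi.single j (Φ s ⟨Q, hQ⟩ j) = Q j • (Pi.single j 1 : s → ℂ) by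
    rw [← Pi.single_smul, smul_eq_mul, mul_one]; rfl, map_smul, mul_comm]
  rfl

variable {n : ℕ}

/-- the orthogonal group -/
abbrev OG (n : ℕ) := E n ≃ₗᵢ[ℝ] E n

/-- basis vector -/
abbrev ee (i : Fin n) : E n := EuclideanSpace.single i 1

/-- matrix entry -/
def ent (l m : Fin n) (O : OG n) : ℂ := (O (ee m) l : ℝ)

/-- a curve of reflections -/
def σ (i l : Fin n) (s : ℝ) : OG n := (ℝ ∙ (ee i + s • ee l)).reflection

lemma σ_diff (i l : Fin n) (v : E n) : DifferentiableAt ℝ (fun s => σ i l s v) 0 := by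
  simp only [σ, Submodule.reflection_singleton_apply, RCLike.ofReal_real_eq_id, id,
    ← real_inner_self_eq_norm_sq]
  have h : DifferentiableAt ℝ (fun s : ℝ => ee i + s • ee l) 0 := by fun_prop
  exact ((((h.inner ℝ (differentiableAt_const v)).div (h.inner ℝ h) (by simp)).smul
    h).const_smul 2).sub_const v

lemma σ_deriv {i l : Fin n} (h : l ≠ i) (ρ : ℝ) : σ i l 0 (ρ • ee i) = ρ • ee i ∧
    HasDerivAt (fun s => σ i l s (ρ • ee i)) ((2 * ρ) • ee l) 0 := by
  have e : ∀ s : ℝ, σ i l s (ρ • ee i) = (2 * ρ / (1 + s ^ 2)) • (ee i + s • ee l) - ρ • ee i := by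
    intro s
    rw [σ, Submodule.reflection_singleton_apply, RCLike.ofReal_real_eq_id, id,
      ← real_inner_self_eq_norm_sq, two_smul, ← add_smul]
    simp only [inner_add_left, inner_add_right, real_inner_smul_left, real_inner_smul_right,
      EuclideanSpace.inner_single_left]
    rw [show 2 * ρ / (1 + s ^ 2) = ρ / (1 + s * s) + ρ / (1 + s * s) by ring]
    simp [h, h.symm]
  simp only [e]
  refine ⟨by simp [mul_smul, two_smul], ?_⟩
  have h1 : HasDerivAt (fun s : ℝ => 2 * ρ / (1 + s ^ 2)) 0 0 := by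
    exact ((hasDerivAt_const (0 : ℝ) (2 * ρ)).fun_div ((hasDerivAt_pow 2 (0 : ℝ)).const_add 1)
      (by simp)).congr_deriv (by simp)
  simpa using (h1.smul (((hasDerivAt_id (0 : ℝ)).smul_const (ee l)).const_add (ee i))).sub_const
    (ρ • ee i)

lemma apply_eq (O : OG n) (x : E n) (l : Fin n) : ((O x l : ℝ) : ℂ) = ∑ m, x m * ent l m O := by
  conv_lhs => rw [← (EuclideanSpace.basisFun (Fin n) ℝ).sum_repr x, map_sum]
  simp [ent]

lemma norm_ent (l m : Fin n) (O : OG n) : ‖ent l m O‖ ≤ 1 := by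
  rw [ent, Complex.norm_real]
  exact (PiLp.norm_apply_le _ l).trans (by simp)

/-- bounded functions on the group that are differentiable along the curves -/
def Good (Q : OG n → ℂ) : Prop :=
  (∃ B, ∀ O, ‖Q O‖ ≤ B) ∧ ∀ (i l : Fin n) (O : OG n),
    DifferentiableAt ℝ (fun s => Q ((σ i l s).trans O)) 0

lemma Good.add {Q R : OG n → ℂ} (hQ : Good Q) (hR : Good R) : Good (Q + R) := by
  obtain ⟨⟨B, hB⟩, h⟩ := hQ
  obtain ⟨⟨B', hB'⟩, h'⟩ := hR
  exact ⟨⟨B + B', fun O => (norm_add_le _ _).trans (add_le_add (hB O) (hB' O))⟩,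
    fun i l O => (h i l O).add (h' i l O)⟩

lemma Good.mul {Q R : OG n → ℂ} (hQ : Good Q) (hR : Good R) : Good (Q * R) := by
  obtain ⟨⟨B, hB⟩, h⟩ := hQ
  obtain ⟨⟨B', hB'⟩, h'⟩ := hR
  exact ⟨⟨B * B', fun O => (norm_mul_le _ _).trans
    (mul_le_mul (hB O) (hB' O) (norm_nonneg _) ((norm_nonneg _).trans (hB O)))⟩,
    fun i l O => (h i l O).mul (h' i l O)⟩

lemma good_const (c : ℂ) : Good (fun _ : OG n => c) :=
  ⟨⟨‖c‖, fun _ => le_rfl⟩, fun _ _ _ => differentiableAt_const c⟩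

lemma good_ent (l m : Fin n) : Good (ent l m) :=
  ⟨⟨1, norm_ent l m⟩, fun i k O => (Complex.ofRealCLM.comp ((EuclideanSpace.proj l).comp
    (O.toContinuousLinearEquiv : E n →L[ℝ] E n))).differentiableAt.comp 0 (σ_diff i k (ee m))⟩

/-- affine functions of the entries -/
def LL (n : ℕ) : Submodule ℂ (OG n → ℂ) :=
  Submodule.span ℂ (insert 1 (range fun p : Fin n × Fin n => ent p.1 p.2))

lemma good_pow {k : ℕ} {Q : OG n → ℂ} (h : Q ∈ LL n ^ k) : Good Q := by
  refine Submodule.pow_induction_on_left (LL n) good_const (fun _ _ => Good.add)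
    (fun m hm x hx => Good.mul ?_ hx) h
  refine Submodule.span_induction ?_ (good_const 0) (fun _ _ _ _ => Good.add)
    (fun c x _ hx => (good_const c).mul hx) hm
  rintro _ (rfl | ⟨p, rfl⟩)
  exacts [good_const 1, good_ent _ _]

lemma pow_mono {d k : ℕ} (h : d ≤ k) : LL n ^ d ≤ LL n ^ k :=
  pow_le_pow_right' (Submodule.one_le.2 (Submodule.subset_span (mem_insert _ _))) h

lemma eval_mem {k : ℕ} {P : MvPolynomial (Fin n) ℂ} (hP : P.totalDegree ≤ k) (x : E n) :
    (fun O : OG n => MvPolynomial.eval (fun l => ((O x l : ℝ) : ℂ)) P) ∈ LL n ^ k := by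
  have h1 : ∀ l, (fun O : OG n => ((O x l : ℝ) : ℂ)) ∈ LL n := fun l => by
    rw [show (fun O : OG n => ((O x l : ℝ) : ℂ)) = ∑ m, (x m : ℂ) • ent l m by
      ext O; simp [apply_eq]]
    exact Submodule.sum_mem _ fun m _ => Submodule.smul_mem _ _
      (Submodule.subset_span (mem_insert_of_mem _ ⟨(l, m), rfl⟩))
  have h2 : ∀ (d : Fin n → ℕ) (s : Finset (Fin n)),
      ∏ l ∈ s, (fun O : OG n => ((O x l : ℝ) : ℂ)) ^ d l ∈ LL n ^ ∑ l ∈ s, d l := by
    intro d s
    induction s using Finset.induction_on with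
    | empty => simpa using Submodule.one_le.1 le_rfl
    | insert a s ha ih =>
      rw [Finset.prod_insert ha, Finset.sum_insert ha, pow_add]
      exact Submodule.mul_mem_mul (Submodule.pow_mem_pow _ (h1 a) _) ih
  rw [show (fun O : OG n => MvPolynomial.eval (fun l => ((O x l : ℝ) : ℂ)) P) =
      ∑ d ∈ P.support, P.coeff d • ∏ l ∈ d.support, (fun O : OG n => ((O x l : ℝ) : ℂ)) ^ d l by
    ext O; simp [MvPolynomial.eval_eq]]
  exact Submodule.sum_mem _ fun d hd => Submodule.smul_mem _ _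
    (pow_mono ((MvPolynomial.le_totalDegree hd).trans hP) (h2 d d.support))

theorem exists_frame (n k : ℕ) : ∃ (s : Finset (OG n)) (a : s → OG n → ℂ), (∀ j, Good (a j)) ∧
    ∀ P : MvPolynomial (Fin n) ℂ, P.totalDegree ≤ k → ∀ (x : E n) (O : OG n),
      MvPolynomial.eval (fun l => ((O x l : ℝ) : ℂ)) P =
        ∑ j : s, a j O * MvPolynomial.eval (fun l => ((j.1 x l : ℝ) : ℂ)) P := by
  have : FiniteDimensional ℂ (LL n ^ k : Submodule ℂ (OG n → ℂ)) :=
    Module.Finite.iff_fg.2 ((Submodule.fg_span ((finite_range _).insert _)).pow k)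
  obtain ⟨s, a, h1, h2⟩ := unisolvent (LL n ^ k)
  exact ⟨s, a, fun j => good_pow (h1 j), fun P hP x O => h2 _ (eval_mem hP x) O⟩

end Pool.Agent.RD7
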