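import Pool.Agent.Lib.RD7.ThmA
import Pool.Agent.Lib.RD7.Poly
import Pool.Agent.Lib.HP.B_CRU

set_option autoImplicit false

open Set Filter Topology MeasureTheory Real
open scoped ENNReal ContDiff

noncomputable section

namespace Pool.Agent.RD7

open Pool.Agent.HP Pool.Agent.RZ CRU

variable {n : ℕ} {h : E n → ℂ} {X : Y n}

lemma pdJ (hh : P h) (hX : 0 < X.2) (i : Option (Fin n)) :
    pd i (J h) X = J (fun ξ => lin ξ (dir i) * h ξ) X := by
  obtain ⟨D, h1, h2⟩ := hh.deriv hX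
  rw [pd, h1.fderiv, h2]

lemma harmJ (hh : P h) : Grad.Harm {X | 0 < X.2} (J h) := by
  refine ⟨contDiffOn_infty.2 fun k => smooth k _ hh, fun X hX => ?_⟩
  have e : ∀ i, pd i (pd i (J h)) X = J (fun ξ => lin ξ (dir i) * (lin ξ (dir i) * h ξ)) X :=
    fun i => by
      rw [Grad.pd_congr' Grad.open_half (fun Z hZ => pdJ hh hZ i) hX, pdJ (hh.mul_lin _) hX]
  have e2 : ∀ ξ : E n, ∑ i, lin ξ (dir i) * (lin ξ (dir i) * h ξ) = 0 := fun ξ => by
    rw [← mul_zero (-(2 * π * ‖ξ‖) * h ξ), ← sum_sy ξ, Finset.mul_sum]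
    exact Finset.sum_congr rfl fun i _ => by rw [lin_dir]; ring
  simp only [e, J]
  rw [← integral_finsetSum _ fun i _ => ((hh.mul_lin _).mul_lin _).int hX]
  simp only [← Finset.mul_sum, e2, mul_zero, integral_zero]

lemma symJ (hg : MemLp h 2) (hX : 0 < X.2) (i j : Option (Fin n)) :
    pd i (J (gs h j)) X = pd j (J (gs h i)) X := by
  rw [pdJ (P.of_memLp (HP.memLp_gs hg _)) hX, pdJ (P.of_memLp (HP.memLp_gs hg _)) hX]
  congr 1
  funext ξ
  rw [lin_dir, lin_dir, gs_eq, gs_eq]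
  ring

lemma trJ (hg : MemLp h 2) (hX : 0 < X.2) : ∑ i, pd i (J (gs h i)) X = 0 := by
  have hP : ∀ i, P (gs h i) := fun i => P.of_memLp (HP.memLp_gs hg i)
  simp only [fun i => pdJ (hP i) hX i, J]
  rw [← integral_finsetSum _ fun i _ => ((hP i).mul_lin _).int hX]
  simp only [gs_eq, ← mul_assoc (lin _ _), ← Finset.mul_sum, ← Finset.sum_mul, sum_sy]
  simp

lemma bdJ (hh : P h) {δ : ℝ} (hδ : 0 < δ) : ∃ B : ℝ, ∀ X : Y n, δ ≤ X.2 → ‖J h X‖ ≤ B :=
  ⟨_, fun _ hX => norm_integral_le_of_norm_le (hh.2 (2 * π * δ) (by positivity))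
    (Eventually.of_forall (norm_le _ hX))⟩

lemma J_comp (h : E n → ℂ) (O : OG n) (x : E n) (t : ℝ) :
    J (fun ξ => h (O ξ)) (x, t) = J h (O x, t) := by
  rw [J, J, ← O.measurePreserving.integral_comp O.toHomeomorph.measurableEmbedding
    fun ξ => Complex.exp (lin ξ (O x, t)) * h ξ]
  simp only [lin_apply, O.inner_map_map, O.norm_map]

lemma J_sum {κ : Type} [Fintype κ] {G : κ → E n → ℂ} (hG : ∀ k, MemLp (G k) 2) (c : κ → ℂ)
    (e : h =ᵐ[volume] fun ξ => ∑ k, c k * G k ξ) (hX : 0 < X.2) :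
    J h X = ∑ k, c k * J (G k) X := by
  simp only [J, ← integral_const_mul]
  rw [← integral_finsetSum _ fun k _ => ((P.of_memLp (hG k)).int hX).const_mul _]
  refine integral_congr_ae (e.mono fun ξ hξ => ?_)
  simp only [hξ, Finset.mul_sum, mul_left_comm]

section

variable {κ : Type} [Fintype κ] {U : κ → Y n → ℂ}

/-- a finite family of complex functions as one vector valued function -/
def pk (U : κ → Y n → ℂ) (X : Y n) : PiLp 2 fun _ : κ => ℂ := WithLp.toLp 2 fun α => U α X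

lemma pd_pk (hU : ∀ α, ContDiffOn ℝ ∞ (U α) {X | 0 < X.2}) (hX : 0 < X.2) (i : Option (Fin n)) :
    pd i (pk U) X = pk (fun α => pd i (U α)) X := by
  ext α
  exact (Grad.pd_clm (PiLp.proj 2 (fun _ : κ => ℂ) α : _ →L[ℝ] ℂ)
    (Grad.dAt Grad.open_half ((contDiffOn_piLp 2).2 hU) hX) i).symm

lemma harm_pk (hU : ∀ α, Grad.Harm {X | 0 < X.2} (U α)) : Grad.Harm {X | 0 < X.2} (pk U) := by
  refine ⟨(contDiffOn_piLp 2).2 fun α => (hU α).1, fun X hX => ?_⟩
  have e : ∀ i, pd i (pd i (pk U)) X = pk (fun α => pd i (pd i (U α))) X := fun i => by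
    rw [Grad.pd_congr' Grad.open_half (fun Z hZ => pd_pk (fun α => (hU α).1) hZ i) hX,
      pd_pk (fun α => Grad.sm_pd Grad.open_half (hU α).1 i) hX]
  ext α
  simpa [e, pk] using (hU α).2 X hX

lemma sq_le {z : PiLp 2 fun _ : κ => ℂ} {c : ℝ} (hz : ∀ α, ‖z α‖ ≤ c) :
    ‖z‖ ^ 2 ≤ Fintype.card κ * c ^ 2 := by
  rw [PiLp.norm_sq_eq_of_L2, ← nsmul_eq_mul, ← Finset.card_univ]
  exact Finset.sum_le_card_nsmul _ _ _ fun α _ => pow_le_pow_left₀ (norm_nonneg _) (hz α) 2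

lemma comb_le {A : κ → ℂ} {B : ℝ} (hA : ∀ β, ‖A β‖ ≤ B) (U : κ → Y n → ℂ) (X : Y n) :
    ‖∑ β, A β * U β X‖ ≤ Fintype.card κ * B * ‖pk U X‖ := by
  rw [mul_assoc, ← nsmul_eq_mul, ← Finset.card_univ]
  exact (norm_sum_le _ _).trans (Finset.sum_le_card_nsmul _ _ _ fun β _ => (norm_mul_le _ _).trans
    (mul_le_mul (hA β) (PiLp.norm_apply_le (pk U X) β) (norm_nonneg _)
      ((norm_nonneg _).trans (hA β))))

end

variable {ι : Type} [Fintype ι]

/-- the conjugate Poisson systems of a family -/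
def ww (g : ι → E n → ℂ) (α : ι × Option (Fin n)) : Y n → ℂ := J (gs (g α.1) α.2)

/-- normal components, placed in the slot `i` -/
def uu (i : Fin n) (g : ι → E n → ℂ) (p : ι × Fin n) : Y n → ℂ :=
  if p.2 = i then ww g (p.1, none) else 0

/-- tangential components -/
def vv (g : ι → E n → ℂ) (p : ι × Fin n) : Y n → ℂ := ww g (p.1, some p.2)

lemma PP_eq (i : Fin n) (g : ι → E n → ℂ) (X : Y n) :
    PP (pk (uu i g)) (pk (vv g)) X = ‖pk (ww g) X‖ ^ 2 := by
  simp only [PP, PiLp.norm_sq_eq_of_L2, pk, Fintype.sum_prod_type, Fintype.sum_option,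
    Finset.sum_add_distrib, uu, vv]
  congr 1
  refine Finset.sum_congr rfl fun j _ => ?_
  rw [Finset.sum_eq_single i (fun l _ hl => by simp [hl]) (by simp), if_pos rfl]

theorem sl_of (i : Fin n) (A : ι × Option (Fin n) → ι × Option (Fin n) → OG n → ℂ)
    (hA : ∀ α β, Good (A α β)) : ∃ K : ℝ, 1 ≤ K ∧ ∀ g : ι → E n → ℂ, (∀ j, MemLp (g j) 2) →
      (∀ α (O : OG n) (x : E n) (t : ℝ), 0 < t →
        ww g α (O x, t) = ∑ β, A α β O * ww g β (x, t)) →
      Sl i K (pk (uu i g)) (pk (vv g)) := by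
  choose B₁ hB₁ using fun α β => (hA α β).1
  obtain ⟨B₂, hB₂⟩ := (finite_range fun p : (_ × _) => B₁ p.1 p.2).bddAbove
  obtain ⟨B₃, hB₃⟩ := (finite_range fun p : (_ × _ × Fin n) =>
    ‖deriv (fun s => A p.1 p.2.1 (σ i p.2.2 s)) 0‖).bddAbove
  set c := (Fintype.card (ι × Option (Fin n)) : ℝ)
  set d := (Fintype.card (ι × Fin n) : ℝ)
  refine ⟨1 + c * (c * B₂) ^ 2 + 2 * (d * (n * (c * B₃)) ^ 2), by
    rw [add_assoc]; exact le_add_of_nonneg_right (by positivity), fun g hg hw => ?_⟩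
  have hP : ∀ α : ι × Option (Fin n), P (gs (g α.1) α.2) := fun α =>
    P.of_memLp (HP.memLp_gs (hg _) _)
  have hv : ∀ p, Grad.Harm {X | 0 < X.2} (vv g p) := fun p => harmJ (hP (_, _))
  have z0 : ∀ k, pd k (0 : Y n → ℂ) = 0 := fun k => funext (Grad.pd_const 0 k)
  have hu : ∀ p, Grad.Harm {X | 0 < X.2} (uu i g p) := fun p => by
    unfold uu
    split_ifs
    exacts [harmJ (hP (_, _)), ⟨contDiffOn_const, fun _ _ => by simp [z0]⟩]
  refine ⟨harm_pk hu, harm_pk hv, fun δ hδ => ?_, fun x x' t ht hx => ?_, fun ρ t hρ ht => ?_⟩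
  · choose B hB using fun α => bdJ (hP α) hδ
    obtain ⟨B', hB'⟩ := (finite_range B).bddAbove
    exact ⟨_, fun X hX => (PP_eq i g X).trans_le
      (sq_le fun α => (hB α X hX).trans (hB' ⟨α, rfl⟩))⟩
  · obtain ⟨O, rfl⟩ : ∃ O : OG n, O x' = x := ⟨_, Submodule.reflection_sub hx.symm⟩
    rw [PP_eq, PP_eq]
    refine (sq_le (c := c * B₂ * ‖pk (ww g) (x', t)‖) fun α => ?_).trans ?_
    · exact (congrArg norm (hw α O x' t ht)).trans_le
        (comb_le (fun β => (hB₁ α β O).trans (hB₂ ⟨(α, β), rfl⟩)) _ _)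
    · rw [mul_pow, ← mul_assoc]
      gcongr
      have : 0 ≤ 2 * (d * (n * (c * B₃)) ^ 2) := by positivity
      linarith
  have hX : 0 < (pt i ρ t).2 := ht
  set M := c * B₃ * ‖pk (ww g) (pt i ρ t)‖ with hM
  have key : ∀ α l, l ≠ i → ‖ρ • pd (some l) (ww g α) (pt i ρ t)‖ ≤ M := fun α l hl => by
    obtain ⟨e0, e1⟩ := σ_deriv hl ρ
    have h1 := (Grad.dAt Grad.open_half (harmJ (hP α)).1 hX).hasFDerivAt.comp_hasDerivAt_of_eq 0
      (e1.prodMk (hasDerivAt_const 0 t)) (by rw [e0]; rfl)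
    have h2 : HasDerivAt (fun s => ∑ β, A α β (σ i l s) * ww g β (pt i ρ t))
        (∑ β, deriv (fun s => A α β (σ i l s)) 0 * ww g β (pt i ρ t)) 0 :=
      HasDerivAt.fun_sum fun β _ =>
        ((hA α β).2 i l (LinearIsometryEquiv.refl ℝ _)).hasDerivAt.mul_const _
    have h3 := h1.unique (h2.congr_of_eventuallyEq (Eventually.of_forall fun s => hw α _ _ t ht))
    have h4 := comb_le (fun β => hB₃ ⟨(α, β, l), rfl⟩) (ww g) (pt i ρ t)
    rw [← h3, show ((2 * ρ) • ee l, (0 : ℝ)) = (2 : ℝ) • ρ • (dir (some l) : Y n) by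
      simp [dir, mul_smul], map_smul, map_smul, norm_smul, Real.norm_two] at h4
    exact (le_mul_of_one_le_left (norm_nonneg _) one_le_two).trans h4
  have hn : (1 : ℝ) ≤ n := by exact_mod_cast i.pos
  have k1 : ι → 0 ≤ M := fun j => mul_nonneg (mul_nonneg (Nat.cast_nonneg _)
    ((norm_nonneg _).trans (hB₃ ⟨((j, none), (j, none), i), rfl⟩))) (norm_nonneg _)
  rw [mul_add, ← sq_abs ρ, ← mul_pow, ← mul_pow, ← Real.norm_eq_abs, ← norm_smul, ← norm_smul,
    pd_pk (fun p => (hu p).1) hX, pd_pk (fun p => (hv p).1) hX, pd_pk (fun p => (hu p).1) hX,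
    pd_pk (fun p => (hv p).1) hX, PP_eq]
  refine (add_le_add (sq_le (c := n * M) ?_) (sq_le (c := n * M) ?_)).trans ?_
  · rintro ⟨j, l⟩
    change ‖ρ • (pd _ (uu i g (j, l)) _ - pd _ (J (gs (g j) (some l))) _)‖ ≤ _
    rw [symJ (hg j) hX, uu]
    split_ifs with hl
    · obtain rfl : l = i := hl
      rw [ww, sub_self, smul_zero, norm_zero]
      exact mul_nonneg (Nat.cast_nonneg _) (k1 j)
    · rw [z0, Pi.zero_apply, zero_sub, smul_neg, norm_neg]
      exact (key (j, none) l hl).trans (le_mul_of_one_le_left (k1 j) hn)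
  · rintro ⟨j, l⟩
    change ‖ρ • (pd _ (uu i g (j, l)) _ + pd _ (J (gs (g j) (some l))) _)‖ ≤ _
    rw [uu]
    split_ifs with hl
    · obtain rfl : l = i := hl
      have h1 := trJ (hg j) hX
      rw [Fintype.sum_option, ← Finset.add_sum_erase _ _ (Finset.mem_univ l), ← add_assoc] at h1
      rw [ww, eq_neg_of_add_eq_zero_left h1, smul_neg, norm_neg, Finset.smul_sum]
      refine (norm_sum_le _ _).trans ((Finset.sum_le_card_nsmul _ _ M fun k hk =>
        key (j, some k) k (Finset.ne_of_mem_erase hk)).trans ?_)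
      rw [nsmul_eq_mul]
      refine mul_le_mul_of_nonneg_right ?_ (k1 j)
      exact_mod_cast (Finset.card_le_univ _).trans_eq (Fintype.card_fin n)
    · rw [z0, Pi.zero_apply, zero_add, symJ (hg j) hX]
      exact (key (j, some i) l hl).trans (le_mul_of_one_le_left (k1 j) hn)
  · rw [hM]
    have : 0 ≤ c * (c * B₂) ^ 2 := by positivity
    nlinarith [sq_nonneg ‖pk (ww g) (pt i ρ t)‖]

end Pool.Agent.RD7
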