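import Pool.Agent.Lib.RD7.Cov
import Pool.Agent.Lib.HP.Classical

set_option autoImplicit false

open MeasureTheory Filter Topology
open scoped ENNReal SchwartzMap

noncomputable section

namespace Pool.Agent.RD7

open Pool.Agent.HP

variable {n : ℕ} {κ : Type} [Fintype κ]

/-- passage to the boundary -/
theorem nta (hn : 1 ≤ n) {q a C : ℝ} (q0 : 0 < q) (q2 : q ≤ 1) (ha : (n : ℝ) < a) (hC : 0 ≤ C)
    {v : Y n → ℂ} {G h : κ → E n → ℂ} (h1 : ∀ i, IsHat (h i) (G i))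
    (H : ∀ ε : ℝ, 0 < ε → ∀ (x y : E n) (t : ℝ), 0 < t →
      ‖v (y, ε + t)‖ₑ ^ q ≤ ENNReal.ofReal (C * (1 + ‖y - x‖ / t) ^ a) *
        KM a (fun z => ∑ i, ‖T po (G i) (z, ε)‖ₑ ^ q) x) :
    ∀ᵐ x, PS (a / q) v x ^ q ≤ ENNReal.ofReal (C * 2 ^ a) * KM a (fun z => ∑ i, ‖h i z‖ₑ ^ q) x := by
  have a0 : 0 ≤ a := (Nat.cast_nonneg n).trans ha.le
  obtain ⟨e, e0, e1⟩ : ∃ e : ℕ → ℝ, (∀ k, 0 < e k) ∧ Tendsto e atTop (𝓝 0) :=
    ⟨fun k => 1 / ((k : ℝ) + 1), fun k => by positivity, tendsto_one_div_add_atTop_nhds_zero_nat⟩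
  have mu : ∀ k i, AEMeasurable (fun z => ‖T po (G i) (z, e k) - h i z‖ₑ) volume := fun k i =>
    ((continuous_T memLp_po (h1 i).2.1 (e0 k).ne').aestronglyMeasurable.sub (h1 i).1.1).enorm
  have s1 : 1 < 2 / q := by rw [lt_div_iff₀ q0]; linarith
  have l2 : ∀ i, Tendsto (fun k => ∫⁻ z, ‖T po (G i) (z, e k) - h i z‖ₑ ^ (2 : ℝ)) atTop
      (𝓝 0) := fun i => NTA.lint_sq (st_L2C st_HAT46 n (h i) (G i) (fun _ => 1)
        (fun k ξ => po (e k • ξ)) 1 (h1 i).2.1 (by simpa using h1 i)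
        (fun k => memLp_dil memLp_po (e0 k).ne') (fun k ξ => norm_po_le _)
        (ae_of_all _ fun ξ => (continuous_po.tendsto' 0 1 (by simp [po])).comp
          (by simpa using e1.smul_const ξ)))
  have nt : ((Finset.univ : Finset κ).card : ℝ≥0∞) ^ (2 / q - 1) ≠ ⊤ :=
    ENNReal.rpow_ne_top_of_nonneg (by linarith) (ENNReal.natCast_ne_top _)
  have l3 : Tendsto (fun k => ∫⁻ z, (∑ i, ‖T po (G i) (z, e k) - h i z‖ₑ ^ q) ^ (2 / q))
      atTop (𝓝 0) := by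
    have t2 := ENNReal.Tendsto.const_mul (tendsto_finsetSum Finset.univ fun i _ => l2 i) (Or.inr nt)
    rw [Finset.sum_const_zero, mul_zero] at t2
    refine tendsto_of_tendsto_of_tendsto_of_le_of_le tendsto_const_nhds t2 (fun _ => zero_le)
      fun k => ?_
    simp only
    rw [← lintegral_finsetSum' _ fun i _ => (mu k i).pow_const (2 : ℝ),
      ← lintegral_const_mul' _ _ nt]
    refine lintegral_mono fun z => (ENNReal.rpow_sum_le_const_mul_sum_rpow _ _ s1.le).trans ?_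
    simp only [← ENNReal.rpow_mul, mul_div_cancel₀ _ q0.ne', le_refl]
  filter_upwards [NTA.freq_small st_HL hn ha s1
    (D := fun k z => ∑ i, ‖T po (G i) (z, e k) - h i z‖ₑ ^ q)
    (fun k => Finset.aemeasurable_fun_sum _ fun i _ => (mu k i).pow_const q) l3] with x hx
  rw [← ENNReal.le_rpow_inv_iff q0]
  refine iSup₂_le fun t ht => iSup_le fun y => ?_
  have r0 : 0 < 1 + ‖y - x‖ / t := by positivity
  have key : ‖v (y, t)‖ₑ ^ q ≤ ENNReal.ofReal (C * 2 ^ a * (1 + ‖y - x‖ / t) ^ a) *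
      KM a (fun z => ∑ i, ‖h i z‖ₑ ^ q) x := by
    refine NTA.le_of_freq ENNReal.ofReal_ne_top hx ?_
    filter_upwards [e1.eventually (gt_mem_nhds (half_pos ht))] with k hk
    have t0 : 0 < t - e k := by linarith
    have b := H (e k) (e0 k) x y (t - e k) t0
    rw [add_sub_cancel] at b
    refine b.trans (mul_le_mul' (ENNReal.ofReal_le_ofReal ?_)
      (le_trans (KM_mono_ae a (ae_of_all _ fun z => ?_) x) (KM_add_le a
        (Finset.aemeasurable_fun_sum _ fun i _ => (h1 i).1.1.enorm.pow_const q) _ x)))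
    · rw [mul_assoc, ← Real.mul_rpow two_pos.le r0.le]
      refine mul_le_mul_of_nonneg_left (Real.rpow_le_rpow (by positivity) ?_ a0) hC
      have : ‖y - x‖ / (t - e k) ≤ ‖y - x‖ / (t / 2) :=
        div_le_div_of_nonneg_left (norm_nonneg _) (half_pos ht) (by linarith)
      rw [div_div_eq_mul_div, mul_div_right_comm] at this
      linarith
    · refine (Finset.sum_le_sum fun i _ => ?_).trans Finset.sum_add_distrib.le
      refine le_trans (ENNReal.rpow_le_rpow ?_ q0.le) (ENNReal.rpow_add_le_add_rpow _ _ q0.le q2)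
      simpa using enorm_add_le (h i z) (T po (G i) (z, e k) - h i z)
  rw [ENNReal.le_rpow_inv_iff q0, ENNReal.mul_rpow_of_nonneg _ _ q0.le,
    ENNReal.ofReal_rpow_of_pos (Real.rpow_pos_of_pos r0 _), ← Real.rpow_mul r0.le]
  refine (mul_le_mul_left key _).trans (le_of_eq ?_)
  rw [mul_right_comm, ← ENNReal.ofReal_mul (by positivity), mul_assoc (C * 2 ^ a),
    ← Real.rpow_add r0, neg_mul, div_mul_cancel₀ _ q0.ne', add_neg_cancel, Real.rpow_zero, mul_one]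

theorem low (hn : 1 ≤ n) (k : ℕ) {p : ℝ} (h0 : 0 < p) (hp1 : p < 1) (φ : 𝓢(E n, ℂ)) :
    ∃ C : ℝ≥0∞, C ≠ ⊤ ∧ ∀ f : E n → ℂ, MemLp f 2 → Deg k f → ∀ R : Fin n → E n → ℂ,
      (∀ j, IsRiesz j f (R j)) → eLpNorm (Mx φ f) (ENNReal.ofReal p) volume ≤ C *
        (eLpNorm f (ENNReal.ofReal p) volume + ∑ j, eLpNorm (R j) (ENNReal.ofReal p) volume) := by
  have hq := half_pos h0
  have ha : (n : ℝ) < n + 1 := lt_add_one _
  have e : p / (p / 2) = 2 := by field_simp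
  obtain ⟨ι, _, Q, C, hC, h⟩ := pois (a := n + 1) hn k hq (by linarith) (by positivity)
  obtain ⟨C1, -, hH⟩ := st_HL n hn _ 2 ha one_lt_two
  obtain ⟨C2, -, hP⟩ := st_PHI (st_PAR st_HAT46) st_ADM (st_DSUP st_DEC) n φ ((n + 1) / (p / 2))
    (by positivity)
  set c := (Fintype.card (ι × Option (Fin n)) : ℝ≥0∞)
  set D := ENNReal.ofReal (C * 2 ^ ((n : ℝ) + 1))
  have n1 : ENNReal.ofReal C2 ^ p * D ^ (2 : ℝ) ≠ ⊤ := ENNReal.mul_ne_top
    (ENNReal.rpow_ne_top_of_nonneg h0.le ENNReal.ofReal_ne_top)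
    (ENNReal.rpow_ne_top_of_nonneg two_pos.le ENNReal.ofReal_ne_top)
  refine ⟨(ENNReal.ofReal C2 ^ p * D ^ (2 : ℝ) * (ENNReal.ofReal C1 * (c ^ ((2 : ℝ) - 1) * c))) ^
    (1 / p) * Fintype.card ι, ENNReal.mul_ne_top (ENNReal.rpow_ne_top_of_nonneg (by positivity)
      (ENNReal.mul_ne_top n1 (ENNReal.mul_ne_top ENNReal.ofReal_ne_top (ENNReal.mul_ne_top
        (ENNReal.rpow_ne_top_of_nonneg (by norm_num) (ENNReal.natCast_ne_top _))
        (ENNReal.natCast_ne_top _))))) (ENNReal.natCast_ne_top _), fun f hf hd R hR => ?_⟩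
  obtain ⟨g, hg⟩ := (st_HAT46 n).1 f hf
  have hh : ∀ m : Option (Fin n), IsHat (m.elim f R) (gs g m) := by
    rintro (_ | j)
    exacts [hg, st_RSZ st_HAT46 n j f g (R j) hg (hR j)]
  have h1 : ∀ α : ι × Option (Fin n), IsHat (fun x => α.2.elim f R (Q α.1 x))
    fun ξ => gs g α.2 (Q α.1 ξ) := fun α => hat_comp (hh α.2) (Q α.1)
  have h2 := nta hn hq (by linarith) ha hC h1 (h f g hg hd)
  have h3 := LOW.sum_le hq (half_lt_self h0) _ fun α => (h1 α).1.1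
  have h4 := hH _ (Finset.aemeasurable_fun_sum Finset.univ fun α _ =>
    (h1 α).1.1.enorm.pow_const (p / 2))
  have e2 : ∀ α : ι × Option (Fin n), eLpNorm (fun x => α.2.elim f R (Q α.1 x)) (.ofReal p) volume
      = eLpNorm (α.2.elim f R) (.ofReal p) volume := fun α =>
    eLpNorm_comp_measurePreserving (hh α.2).1.1 (Q α.1).measurePreserving
  simp only [e, e2] at h3
  rw [Fintype.sum_prod_type] at h3
  simp only [Fintype.sum_option, Option.elim_none, Option.elim_some, Finset.sum_const,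
    Finset.card_univ, nsmul_eq_mul] at h3
  rw [← ENNReal.rpow_le_rpow_iff h0, mul_assoc, ENNReal.mul_rpow_of_nonneg _ _ h0.le,
    ← ENNReal.rpow_mul, one_div_mul_cancel h0.ne', ENNReal.rpow_one, ← LOW.lint_eq h0,
    mul_assoc _ (_ * _), mul_assoc (ENNReal.ofReal C1)]
  refine le_trans ?_ (mul_le_mul' le_rfl (h4.trans (mul_le_mul' le_rfl h3)))
  rw [← lintegral_const_mul' _ _ n1]
  refine lintegral_mono_ae (h2.mono fun x hx => ?_)
  rw [enorm_eq_self, mul_assoc, ← ENNReal.mul_rpow_of_nonneg _ _ two_pos.le]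
  refine (ENNReal.rpow_le_rpow (hP f g hg x) h0.le).trans ?_
  rw [ENNReal.mul_rpow_of_nonneg _ _ h0.le]
  refine mul_le_mul' le_rfl (le_trans (le_of_eq ?_) (ENNReal.rpow_le_rpow hx two_pos.le))
  rw [← ENNReal.rpow_mul, div_mul_cancel₀ p two_ne_zero]

theorem main (hn : 1 ≤ n) (k : ℕ) {p : ℝ} (h0 : 0 < p) (hp1 : p < 1) (φ : 𝓢(E n, ℂ))
    (hφ : ∫ x, φ x = 1) : ∃ c C : ℝ, 0 < c ∧ 0 < C ∧ ∀ f : E n → ℂ, MemLp f 2 → Deg k f →
    ∀ R : Fin n → E n → ℂ, (∀ j, IsRiesz j f (R j)) →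
      ENNReal.ofReal c * eLpNorm (Mx φ f) (ENNReal.ofReal p) volume ≤
        eLpNorm f (ENNReal.ofReal p) volume + ∑ j, eLpNorm (R j) (ENNReal.ofReal p) volume ∧
      eLpNorm f (ENNReal.ofReal p) volume + ∑ j, eLpNorm (R j) (ENNReal.ofReal p) volume ≤
        ENNReal.ofReal C * eLpNorm (Mx φ f) (ENNReal.ofReal p) volume := by
  obtain ⟨C₁, hC₁, h₁⟩ := low hn k h0 hp1 φ
  obtain ⟨C₂, hC₂, h₂⟩ := up_all n hn p h0 (by linarith) φ hφ
  have h3 : 0 < C₁.toReal + 1 := by positivity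
  refine ⟨(C₁.toReal + 1)⁻¹, C₂, inv_pos.2 h3, hC₂, fun f hf hd R hR => ⟨?_, h₂ f hf R hR⟩⟩
  rw [ENNReal.ofReal_inv_of_pos h3, ENNReal.inv_mul_le_iff (by simpa using h3)
    ENNReal.ofReal_ne_top, ENNReal.ofReal_add ENNReal.toReal_nonneg zero_le_one,
    ENNReal.ofReal_toReal hC₁]
  exact (h₁ f hf hd R hR).trans (mul_le_mul' le_self_add le_rfl)

end Pool.Agent.RD7
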