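import Pool.Agent.Lib.HP.Util

set_option autoImplicit false

open Set Filter Topology MeasureTheory Real Metric
open scoped ENNReal

noncomputable section

namespace Pool.Agent.RD7

open Pool.Agent.HP

variable {n : ℕ}

/-- closed spherical shell -/
def Sh (n : ℕ) (α β : ℝ) : Set (E n) := {z | ‖z‖ ∈ Icc α β}

lemma Sh_meas (α β : ℝ) : MeasurableSet (Sh n α β) := measurable_norm measurableSet_Icc

lemma shell_eq (hn : 1 ≤ n) {g : ℝ → ℝ} (hg : Continuous g) (g0 : ∀ s, 0 ≤ g s) {α β : ℝ}
    (hα : 0 < α) (hβ : α ≤ β) : ∫⁻ z in Sh n α β, ENNReal.ofReal (g ‖z‖) =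
      ENNReal.ofReal (n * (volume.real (ball (0 : E n) 1) * ∫ y in α..β, y ^ (n - 1) * g y)) := by
  have : Nonempty (Fin n) := ⟨⟨0, hn⟩⟩
  have hc : IsCompact (Sh n α β) :=
    (isCompact_closedBall (0 : E n) β).of_isClosed_subset (isClosed_Icc.preimage continuous_norm)
      fun z hz => mem_closedBall_zero_iff.2 hz.2
  rw [← ofReal_integral_eq_lintegral_ofReal (f := fun z : E n => g ‖z‖)
    ((hg.comp continuous_norm).continuousOn.integrableOn_compact hc)
    (ae_of_all _ fun z => g0 _), ← integral_indicator (Sh_meas α β)]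
  have h1 := integral_fun_norm_addHaar (volume : Measure (E n)) ((Icc α β).indicator g)
  have h2 : (fun y : ℝ => y ^ (n - 1) • (Icc α β).indicator g y) =
      (Icc α β).indicator fun y => y ^ (n - 1) * g y := by
    ext y; by_cases h : y ∈ Icc α β <;> simp [h]
  rw [finrank_euclideanSpace_fin, h2, setIntegral_indicator measurableSet_Icc,
    inter_eq_right.2 (show Icc α β ⊆ Ioi 0 from fun y hy => hα.trans_le hy.1), integral_Icc_eq_integral_Ioc,
    ← intervalIntegral.integral_of_le hβ, nsmul_eq_mul, smul_eq_mul] at h1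
  rw [← h1]
  rfl

lemma rot_I {a t : ℝ} (G : ℝ → ℝ≥0∞) {y y' : E n} (h : ‖y‖ = ‖y'‖) :
    ∫⁻ z, ENNReal.ofReal (ker n a t (z - y)) * G ‖z‖ =
      ∫⁻ z, ENNReal.ofReal (ker n a t (z - y')) * G ‖z‖ := by
  obtain ⟨O, hO⟩ : ∃ O : E n ≃ₗᵢ[ℝ] E n, O y = y' := ⟨_, Submodule.reflection_sub h⟩
  rw [← O.measurePreserving.lintegral_comp_emb O.toHomeomorph.measurableEmbedding
    fun z => ENNReal.ofReal (ker n a t (z - y')) * G ‖z‖]
  simp only [← hO, ← map_sub, HP.ker, O.norm_map]

lemma I_le {a t : ℝ} (ha : 0 ≤ a) (ht : 0 < t) (G : ℝ → ℝ≥0∞) (x y : E n) :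
    ∫⁻ z, ENNReal.ofReal (ker n a t (z - y)) * G ‖z‖ ≤
      ENNReal.ofReal ((1 + |‖y‖ - ‖x‖| / t) ^ a) *
        ∫⁻ z, ENNReal.ofReal (ker n a t (z - x)) * G ‖z‖ := by
  obtain ⟨y', h1, h2⟩ : ∃ y' : E n, ‖y‖ = ‖y'‖ ∧ ‖y' - x‖ = |‖y‖ - ‖x‖| := by
    rcases eq_or_ne x 0 with rfl | hx
    · exact ⟨y, rfl, by simp⟩
    · have hx' := norm_ne_zero_iff.2 hx
      refine ⟨(‖y‖ / ‖x‖) • x, by simp [norm_smul, hx'], ?_⟩
      rw [show (‖y‖ / ‖x‖) • x - x = (‖y‖ / ‖x‖ - 1) • x by rw [sub_smul, one_smul], norm_smul,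
        Real.norm_eq_abs, ← abs_norm x, ← abs_mul, abs_norm]
      congr 1; field_simp
  rw [rot_I G h1, ← lintegral_const_mul' _ _ ENNReal.ofReal_ne_top, ← h2]
  refine lintegral_mono fun z => ?_
  have h0 : 0 < 1 + ‖y' - x‖ / t := by positivity
  rw [← mul_assoc, ← ENNReal.ofReal_mul (by positivity)]
  refine mul_le_mul_left (ENNReal.ofReal_le_ofReal ?_) _
  have := ker_shift ha ht x y' z
  rwa [Real.rpow_neg h0.le, inv_mul_le_iff₀ (by positivity)] at this

theorem shell (hn : 1 ≤ n) {a r : ℝ} (ha : 0 ≤ a) (hr : 0 < r) (hr1 : r ≤ 1) :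
    ∃ C : ℝ, 0 < C ∧ ∀ g : ℝ → ℝ, Continuous g → (∀ s, 0 ≤ g s) → ∀ t ρ : ℝ, 0 < t →
      3 * (r * t) ≤ ρ → ∀ x : E n, ENNReal.ofReal (∫ s in (-r)..r, g (ρ + t * s)) ≤
        ENNReal.ofReal (C * (1 + |ρ - ‖x‖| / t) ^ a) *
          ∫⁻ z, ENNReal.ofReal (ker n a t (z - x)) * ENNReal.ofReal (g ‖z‖) := by
  obtain ⟨ω, hω, hω'⟩ : ∃ ω : ℝ, 0 < ω ∧ ω = volume.real (ball (0 : E n) 1) :=
    ⟨_, ENNReal.toReal_pos (measure_ball_pos _ _ one_pos).ne' measure_ball_lt_top.ne, rfl⟩
  have hv : volume (ball (0 : E n) 1) = ENNReal.ofReal ω := by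
    rw [hω', Measure.real, ENNReal.ofReal_toReal measure_ball_lt_top.ne]
  refine ⟨4 * r * 3 ^ (n - 1) * 3 ^ a / (2 ^ (-a) * r ^ n * ω), by positivity,
    fun g hg g0 t ρ ht hρ x => ?_⟩
  have hn' : (0 : ℝ) < n := by exact_mod_cast hn
  have hl : 0 < r * t := by positivity
  have hp : 0 < ρ - r * t := by linarith
  set w := 1 + |ρ - ‖x‖| / t with hw
  have w0 : 0 < w := by positivity
  set I := ∫⁻ z, ENNReal.ofReal (ker n a t (z - x)) * ENNReal.ofReal (g ‖z‖)
  have up : ∫⁻ y in Sh n (ρ - 2 * (r * t)) (ρ + 2 * (r * t)),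
      ∫⁻ z, ENNReal.ofReal (ker n a t (z - y)) * ENNReal.ofReal (g ‖z‖) ≤
      ENNReal.ofReal (3 ^ a * w ^ a * (n * (ω * (4 * (r * t) * (3 * (ρ - r * t)) ^ (n - 1))))) * I := by
    calc _ ≤ ∫⁻ y in Sh n (ρ - 2 * (r * t)) (ρ + 2 * (r * t)),
          ENNReal.ofReal (3 ^ a * w ^ a) * I * ENNReal.ofReal ((fun _ => 1 : ℝ → ℝ) ‖y‖) := by
          refine setLIntegral_mono' (Sh_meas _ _) fun y hy => ?_
          rw [ENNReal.ofReal_one, mul_one]
          refine (I_le ha ht (fun s => ENNReal.ofReal (g s)) x y).trans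
            (mul_le_mul_left (ENNReal.ofReal_le_ofReal ?_) _)
          rw [← Real.mul_rpow (by norm_num) w0.le]
          refine Real.rpow_le_rpow (by positivity) ?_ ha
          have h1 : |‖y‖ - ‖x‖| ≤ |ρ - ‖x‖| + 2 * t := by
            have := abs_sub_le ‖y‖ ρ ‖x‖
            have h2 : |‖y‖ - ρ| ≤ 2 * t := abs_le.2 ⟨by nlinarith [hy.1], by nlinarith [hy.2]⟩
            linarith
          have h3 := div_le_div_of_nonneg_right h1 ht.le
          rw [add_div, mul_div_cancel_right₀ _ ht.ne'] at h3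
          have : 0 ≤ |ρ - ‖x‖| / t := by positivity
          linarith
      _ ≤ _ := by
          rw [lintegral_const_mul _ (by fun_prop), shell_eq hn continuous_const
            (fun _ => zero_le_one) (by linarith) (by linarith), ← hω', mul_right_comm,
            ← ENNReal.ofReal_mul (by positivity)]
          refine mul_le_mul_left (ENNReal.ofReal_le_ofReal ?_) _
          gcongr
          have := intervalIntegral.integral_mono_on (μ := volume)
            (show ρ - 2 * (r * t) ≤ ρ + 2 * (r * t) by linarith)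
            (Continuous.intervalIntegrable (u := fun y : ℝ => y ^ (n - 1) * 1) (by fun_prop) _ _)
            (intervalIntegrable_const (c := (3 * (ρ - r * t)) ^ (n - 1))) fun y hy => by
              rw [mul_one]
              exact pow_le_pow_left₀ (by linarith [hy.1]) (by linarith [hy.2]) _
          rw [intervalIntegral.integral_const, smul_eq_mul] at this
          linarith
  have lo : ENNReal.ofReal (2 ^ (-a) * r ^ n * ω * (n * (ω * ((ρ - r * t) ^ (n - 1) *
        (t * ∫ s in (-r)..r, g (ρ + t * s)))))) ≤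
      ∫⁻ y in Sh n (ρ - 2 * (r * t)) (ρ + 2 * (r * t)),
        ∫⁻ z, ENNReal.ofReal (ker n a t (z - y)) * ENNReal.ofReal (g ‖z‖) := by
    have m1 : Measurable fun p : E n × E n => ENNReal.ofReal (ker n a t (p.2 - p.1)) :=
      ((continuous_ker a ht).measurable.comp (measurable_snd.sub measurable_fst)).ennreal_ofReal
    have m2 : Measurable fun p : E n × E n => ENNReal.ofReal (g ‖p.2‖) :=
      (hg.measurable.comp measurable_snd.norm).ennreal_ofReal
    rw [lintegral_lintegral_swap (f := fun y z : E n => ENNReal.ofReal (ker n a t (z - y)) *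
      ENNReal.ofReal (g ‖z‖)) (m1.mul m2).aemeasurable]
    calc _ ≤ ENNReal.ofReal (2 ^ (-a) * r ^ n * ω) *
          ∫⁻ z in Sh n (ρ - r * t) (ρ + r * t), ENNReal.ofReal (g ‖z‖) := by
          rw [shell_eq hn hg g0 hp (by linarith), ← hω', ← ENNReal.ofReal_mul (by positivity)]
          refine ENNReal.ofReal_le_ofReal ?_
          gcongr
          have e := intervalIntegral.mul_integral_comp_add_mul (f := g) (a := -r) (b := r) t ρ
          rw [e, show ρ + t * -r = ρ - r * t by ring, mul_comm t r,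
            ← intervalIntegral.integral_const_mul]
          exact intervalIntegral.integral_mono_on (by linarith)
            (Continuous.intervalIntegrable (by fun_prop) _ _)
            (Continuous.intervalIntegrable (by fun_prop) _ _) fun y hy =>
              mul_le_mul_of_nonneg_right (pow_le_pow_left₀ hp.le hy.1 _) (g0 y)
      _ ≤ _ := by
          rw [← lintegral_const_mul' _ _ ENNReal.ofReal_ne_top]
          refine (setLIntegral_mono' (Sh_meas _ _) fun z hz => ?_).trans
            (setLIntegral_le_lintegral _ _)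
          rw [lintegral_mul_const' _ _ ENNReal.ofReal_ne_top]
          refine mul_le_mul_left ?_ _
          have hb : ball z (r * t) ⊆ Sh n (ρ - 2 * (r * t)) (ρ + 2 * (r * t)) := fun y hy => by
            have h1 := abs_le.1 ((abs_norm_sub_norm_le y z).trans (mem_ball_iff_norm.1 hy).le)
            exact ⟨by linarith [hz.1], by linarith [hz.2]⟩
          refine le_trans ?_ (lintegral_mono_set hb)
          calc _ = ∫⁻ _ in ball z (r * t), ENNReal.ofReal ((t ^ n)⁻¹ * 2 ^ (-a)) := by
                rw [setLIntegral_const, Measure.addHaar_ball_of_pos _ _ hl, hv,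
                  finrank_euclideanSpace_fin, ← ENNReal.ofReal_mul (by positivity),
                  ← ENNReal.ofReal_mul (by positivity)]
                congr 1
                rw [mul_pow]; field_simp
            _ ≤ _ := by
                refine setLIntegral_mono' measurableSet_ball fun y hy =>
                  ENNReal.ofReal_le_ofReal (mul_le_mul_of_nonneg_left ?_ (by positivity))
                refine Real.rpow_le_rpow_of_nonpos (by positivity) ?_ (by linarith)
                have h1 : ‖z - y‖ ≤ t := by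
                  rw [norm_sub_rev]; nlinarith [mem_ball_iff_norm.1 hy]
                have := (div_le_one ht).2 h1
                linarith
  obtain ⟨c, hc, hc'⟩ : ∃ c : ℝ, 0 < c ∧
      c = 2 ^ (-a) * r ^ n * ω * (n * (ω * ((ρ - r * t) ^ (n - 1) * t))) := ⟨_, by positivity, rfl⟩
  have := mul_le_mul_right (lo.trans up) (ENNReal.ofReal c⁻¹)
  rw [← ENNReal.ofReal_mul (by positivity), ← mul_assoc (ENNReal.ofReal _),
    ← ENNReal.ofReal_mul (by positivity)] at this
  have hp' := (pow_pos hp (n - 1)).ne'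
  rw [mul_pow] at this
  generalize (ρ - r * t) ^ (n - 1) = P at this hc' hp'
  refine (le_of_eq (congrArg ENNReal.ofReal ?_)).trans (this.trans (le_of_eq ?_))
  · rw [hc']; field_simp
  · congr 2
    rw [hc']; field_simp

end Pool.Agent.RD7
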