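import Pool.Agent.Lib.RD7.TwoD
import Pool.Agent.Lib.RD7.Shell
import Pool.Agent.Lib.RZ.Grad44

set_option autoImplicit false

open Set Filter Topology MeasureTheory Real Metric
open scoped ENNReal ContDiff

noncomputable section

namespace Pool.Agent.RD7

open Pool.Agent.HP Pool.Agent.RZ

variable {n : ℕ} {H : Type} [NormedAddCommGroup H] [InnerProductSpace ℝ H]

/-- point of the slice -/
def pt (i : Fin n) (ρ t : ℝ) : Y n := (ρ • EuclideanSpace.single i 1, t)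

/-- square norm of a pair -/
def PP (u v : Y n → H) (X : Y n) : ℝ := ‖u X‖ ^ 2 + ‖v X‖ ^ 2

/-- harmonic pair that is almost radial and almost holomorphic on a slice -/
structure Sl (i : Fin n) (K : ℝ) (u v : Y n → H) : Prop where
  hu : Grad.Harm {X | 0 < X.2} u
  hv : Grad.Harm {X | 0 < X.2} v
  bdd : ∀ δ : ℝ, 0 < δ → ∃ B : ℝ, ∀ X : Y n, δ ≤ X.2 → PP u v X ≤ B
  rad : ∀ (x x' : E n) (t : ℝ), 0 < t → ‖x‖ = ‖x'‖ → PP u v (x, t) ≤ K * PP u v (x', t)
  ang : ∀ ρ t : ℝ, 0 < ρ → 0 < t → ρ ^ 2 * (‖pd (some i) u (pt i ρ t) - pd none v (pt i ρ t)‖ ^ 2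
    + ‖pd none u (pt i ρ t) + pd (some i) v (pt i ρ t)‖ ^ 2) ≤ K * PP u v (pt i ρ t)

omit [InnerProductSpace ℝ H] in
lemma PP_nonneg (u v : Y n → H) (X : Y n) : 0 ≤ PP u v X := by unfold PP; positivity

lemma norm_pt (i : Fin n) (ρ : ℝ) : ‖(ρ • EuclideanSpace.single i 1 : E n)‖ = |ρ| := by
  simp [norm_smul]

lemma dist_pt (i : Fin n) (ρ ρ' t : ℝ) : dist (pt i ρ t) (pt i ρ' t) = |ρ - ρ'| := by
  rw [dist_eq_norm, pt, pt, Prod.mk_sub_mk, ← sub_smul, Prod.norm_def, norm_pt]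
  simp

/-- normalised restriction to the slice -/
def rs' (i : Fin n) (c ρ ε t : ℝ) (u : Y n → H) (p : ℝ × ℝ) : H :=
  c • u (pt i (ρ + t * p.1) (ε + t * p.2))

lemma dd_rs {i : Fin n} {c ρ ε t : ℝ} {u : Y n → H} {p : ℝ × ℝ}
    (hu : DifferentiableAt ℝ u (pt i (ρ + t * p.1) (ε + t * p.2))) (w : ℝ × ℝ) :
    dd w (rs' i c ρ ε t u) p = (c * t * w.1) • pd (some i) u (pt i (ρ + t * p.1) (ε + t * p.2))
      + (c * t * w.2) • pd none u (pt i (ρ + t * p.1) (ε + t * p.2)) := by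
  have h1 : HasFDerivAt (fun p : ℝ × ℝ => pt i (ρ + t * p.1) (ε + t * p.2)) _ p :=
    ((((hasFDerivAt_fst (𝕜 := ℝ)).const_mul t).const_add ρ).smul_const _).prodMk
      (((hasFDerivAt_snd (𝕜 := ℝ)).const_mul t).const_add ε)
  have h2 := ((hu.hasFDerivAt.comp p h1).const_smul c).fderiv
  unfold dd pd
  rw [show fderiv ℝ (rs' i c ρ ε t u) p = _ from h2, mul_assoc, mul_assoc, mul_smul c, mul_smul c,
    ← smul_add, ← map_smul, ← map_smul, ← map_add]
  simp [dir]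

lemma sm_rs {i : Fin n} {c ρ ε t : ℝ} {u : Y n → H} (hu : ContDiffOn ℝ ∞ u {X | 0 < X.2}) :
    ContDiffOn ℝ ∞ (rs' i c ρ ε t u) {p | 0 < ε + t * p.2} :=
  (hu.comp (f := fun p : ℝ × ℝ => pt i (ρ + t * p.1) (ε + t * p.2))
    (by unfold pt; fun_prop) fun _ hp => hp).const_smul c

lemma lip {i : Fin n} {u : Y n → H} (hu : ContDiffOn ℝ ∞ u {X | 0 < X.2}) {ρ t d L : ℝ}
    (ht : 0 < t) (hd : 0 ≤ d) (h : ∀ s ∈ Icc (0 : ℝ) d, ‖pd (some i) u (pt i (ρ + s) t)‖ ≤ L) :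
    ‖u (pt i (ρ + d) t) - u (pt i ρ t)‖ ≤ L * d := by
  have e : ∀ s : ℝ, pt i (ρ + s) t = pt i ρ t + s • dir (some i) := fun s => by
    simp [pt, dir, add_smul]
  have := norm_image_sub_le_of_norm_deriv_le_segment' (a := 0) (b := d)
    (f := fun s : ℝ => u (pt i ρ t + s • dir (some i)))
    (fun s _ => (Grad.line (Grad.dAt Grad.open_half hu (by rw [← e]; exact ht))).hasDerivWithinAt)
    (fun s hs => by rw [← e]; exact h s (Ico_subset_Icc_self hs)) d ⟨hd, le_rfl⟩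
  simpa [e] using this

theorem core (i : Fin n) {K q b : ℝ} (hK : 1 ≤ K) (hq : 0 < q) (hq1 : q ≤ 1) (hb : 0 ≤ b) :
    ∃ r c : ℝ, 0 < r ∧ r ≤ 1 / 16 ∧ 0 < c ∧ ∀ (H : Type) [NormedAddCommGroup H]
      [InnerProductSpace ℝ H] (u v : Y n → H), Sl i K u v → ∀ ε ρ t M : ℝ, 0 < ε → 0 ≤ ρ → 0 < t →
      0 < M → M / 2 ≤ PP u v (pt i ρ (ε + t)) →
      (∀ (z : E n) (τ : ℝ), |‖z‖ - ρ| ≤ t → 0 < τ → τ ≤ 2 * t →
        PP u v (z, ε + τ) ≤ K * M * (3 * t / τ) ^ b) →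
      c * M ^ q ≤ ∫ s in (-r)..r, PP u v (pt i (ρ + 3 * (r * t) + t * s) ε) ^ q := by
  obtain ⟨K1, hK1, hK1'⟩ : ∃ K1 : ℝ, 1 ≤ K1 ∧ K1 = K * 6 ^ b :=
    ⟨_, one_le_mul_of_one_le_of_one_le hK (Real.one_le_rpow (by norm_num) hb), rfl⟩
  obtain ⟨K2, hK2, hK2'⟩ : ∃ K2 : ℝ, 1 ≤ K2 ∧ K2 = K * 3 ^ b :=
    ⟨_, one_le_mul_of_one_le_of_one_le hK (Real.one_le_rpow (by norm_num) hb), rfl⟩
  obtain ⟨G, hG, hG'⟩ : ∃ G : ℝ, 1 ≤ G ∧ G = 4 * (n + 4) :=
    ⟨_, by linarith [Nat.cast_nonneg (α := ℝ) n], rfl⟩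
  have hGK := one_le_mul_of_one_le_of_one_le hG hK1
  obtain ⟨r, hr, hr'⟩ : ∃ r : ℝ, 0 < r ∧ 16 * (G * K1) * r = 1 :=
    ⟨1 / (16 * (G * K1)), by positivity, by field_simp⟩
  have hr1 : r ≤ 1 / 16 := by nlinarith
  obtain ⟨c, hc, h2⟩ := twoD (κ := K / r ^ 2) (A := b) (σ := 1 / (8 * K2)) (Γ := 2 * G ^ 2 * K1)
    (by positivity) hq hq1 hb hr (by positivity) (by positivity)
  refine ⟨r, c, hr, hr1, hc, fun H _ _ u v S ε ρ t M hε hρ ht hM h0 hP => ?_⟩
  obtain ⟨m, hm, hm'⟩ : ∃ m : ℝ, 0 < m ∧ m ^ 2 = K1 * M :=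
    ⟨√(K1 * M), by positivity, Real.sq_sqrt (by positivity)⟩
  obtain ⟨k, hk, hk'⟩ : ∃ k : ℝ, 0 < k ∧ k ^ 2 * (K2 * M) = 1 :=
    ⟨√(K2 * M)⁻¹, by positivity, by rw [Real.sq_sqrt (by positivity)]; field_simp⟩
  have hrt : 0 < r * t := by positivity
  have hrt' : r * t ≤ t / 16 := by nlinarith
  have ball1 : ∀ Z ∈ closedBall (pt i ρ (ε + t)) (t / 2), 0 < Z.2 ∧ PP u v Z ≤ m ^ 2 := by
    rintro ⟨z, τ⟩ hZ
    rw [mem_closedBall, Prod.dist_eq, max_le_iff] at hZ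
    have a := abs_le.1 (show |τ - (ε + t)| ≤ t / 2 from hZ.2)
    have a' := (abs_norm_sub_norm_le _ _).trans ((dist_eq_norm _ _).symm.le.trans hZ.1)
    rw [show ‖(pt i ρ (ε + t)).1‖ = ρ from (norm_pt i ρ).trans (abs_of_nonneg hρ)] at a'
    refine ⟨by linarith [a.1], ?_⟩
    have e := hP z (τ - ε) (by linarith) (by linarith [a.1]) (by linarith [a.2])
    rw [add_sub_cancel] at e
    refine e.trans ?_
    rw [hm', hK1', mul_right_comm K (6 ^ b)]
    have a0 : 0 < τ - ε := by linarith [a.1]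
    refine mul_le_mul_of_nonneg_left (Real.rpow_le_rpow (by positivity) ?_ hb) (by positivity)
    rw [div_le_iff₀ a0]; linarith [a.1]
  have gr : ∀ w : Y n → H, Grad.Harm {X | 0 < X.2} w → (∀ Z, ‖w Z‖ ^ 2 ≤ PP u v Z) →
      ∀ s ∈ Icc (0 : ℝ) (t / 4), ‖pd (some i) w (pt i (ρ + s) (ε + t))‖ ≤ G * m / t := by
    intro w hw hw' s hs
    have sub : closedBall (pt i (ρ + s) (ε + t)) (t / 4) ⊆ closedBall (pt i ρ (ε + t)) (t / 2) :=
      closedBall_subset_closedBall' (by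
        rw [dist_pt, add_sub_cancel_left, abs_of_nonneg hs.1]; linarith [hs.2])
    refine (Grad.grad_pd Grad.open_half hw (by positivity) (fun Z hZ => (ball1 Z (sub hZ)).1)
      (fun Z hZ => abs_le_of_sq_le_sq' ((hw' Z).trans (ball1 Z (sub hZ)).2) hm.le |>.2) _).trans
      (le_of_eq ?_)
    rw [hG']; field_simp
  have gu := gr u S.hu fun Z => le_add_of_nonneg_right (sq_nonneg _)
  have gv := gr v S.hv fun Z => le_add_of_nonneg_left (sq_nonneg _)
  have nrm : ∀ p : ℝ × ℝ, ‖rs' i k (ρ + 3 * (r * t)) ε t u p‖ ^ 2 +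
      ‖rs' i k (ρ + 3 * (r * t)) ε t v p‖ ^ 2 =
      k ^ 2 * PP u v (pt i (ρ + 3 * (r * t) + t * p.1) (ε + t * p.2)) := fun p => by
    simp only [rs', PP, norm_smul, mul_pow, Real.norm_eq_abs, sq_abs, mul_add]
  have dA : ∀ {w : Y n → H}, Grad.Harm {X | 0 < X.2} w → ∀ a τ : ℝ, 0 ≤ τ →
      DifferentiableAt ℝ w (pt i a (ε + t * τ)) := fun hw a τ hτ =>
    Grad.dAt Grad.open_half hw.1 (show 0 < ε + t * τ by positivity)
  have h3 := h2 H {p | 0 < ε + t * p.2} (rs' i k (ρ + 3 * (r * t)) ε t u) (rs' i k (ρ + 3 * (r * t)) ε t v)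
    (isOpen_lt continuous_const (by fun_prop)) (fun p hp => show 0 < ε + t * p.2 by
      have := hp.2.1; positivity) (sm_rs S.hu.1) (sm_rs S.hv.1) ?_ ?_ ?_
  · simp only [nrm, mul_zero, add_zero] at h3
    simp only [Real.mul_rpow (sq_nonneg k) (PP_nonneg u v _)] at h3
    rw [intervalIntegral.integral_const_mul] at h3
    have e : (k ^ 2) ^ q * M ^ q ≤ 1 := by
      rw [← Real.mul_rpow (sq_nonneg k) hM.le]
      refine Real.rpow_le_one (by positivity) ?_ hq.le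
      nlinarith [mul_pos (pow_pos hk 2) hM]
    have i0 : 0 ≤ ∫ s in (-r)..r, PP u v (pt i (ρ + 3 * (r * t) + t * s) ε) ^ q :=
      intervalIntegral.integral_nonneg (by linarith) fun s _ => Real.rpow_nonneg (PP_nonneg _ _ _) _
    have := mul_le_mul_of_nonneg_right h3 (Real.rpow_nonneg hM.le q)
    nlinarith [mul_le_mul_of_nonneg_right e i0]
  · intro x hx τ hτ
    have x1 : r * t ≤ ρ + 3 * (r * t) + t * x := by nlinarith [hx.1]
    have a := S.ang _ (ε + t * τ) (hrt.trans_le x1) (by have := hτ.1; positivity)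
    rw [nrm]
    simp only [dd_rs (p := (x, τ)) (dA S.hu _ _ hτ.1), dd_rs (p := (x, τ)) (dA S.hv _ _ hτ.1),
      mul_one, mul_zero, zero_smul, add_zero, zero_add, ← smul_sub, ← smul_add, norm_smul, mul_pow,
      Real.norm_eq_abs, sq_abs, ← mul_add]
    have e := (mul_le_mul_of_nonneg_right (pow_le_pow_left₀ hrt.le x1 2) (by positivity)).trans a
    rw [div_mul_eq_mul_div, le_div_iff₀ (by positivity)]
    nlinarith [mul_le_mul_of_nonneg_left e (sq_nonneg k)]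
  · intro x hx τ hτ
    have x1 : 0 ≤ 3 * (r * t) + t * x := by nlinarith [hx.1]
    have x2 : 3 * (r * t) + t * x ≤ t := by nlinarith [hx.2]
    have t0 := hτ.1
    have a := hP ((ρ + 3 * (r * t) + t * x) • EuclideanSpace.single i 1) (t * τ) (by
      rw [norm_pt, add_assoc, abs_of_nonneg (add_nonneg hρ x1), add_sub_cancel_left,
        abs_of_nonneg x1]
      exact x2) (by positivity) (by nlinarith [hτ.2])
    rw [nrm]
    refine (mul_le_mul_of_nonneg_left a (sq_nonneg k)).trans (le_of_eq ?_)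
    rw [show 3 * t / (t * τ) = 3 * τ⁻¹ by field_simp, Real.mul_rpow (by norm_num) (by positivity),
      Real.inv_rpow t0.le, Real.rpow_neg t0.le]
    linear_combination (τ ^ b)⁻¹ * hk' - k ^ 2 * M * (τ ^ b)⁻¹ * hK2'
  · intro x hx
    have x1 : 0 ≤ 3 * (r * t) + t * x := by nlinarith [hx.1]
    have x2 : 3 * (r * t) + t * x ≤ 4 * (r * t) := by nlinarith [hx.2]
    have sub : Icc (0 : ℝ) (3 * (r * t) + t * x) ⊆ Icc 0 (t / 4) :=
      Icc_subset_Icc_right (by linarith)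
    have e0 : G * m / t * (3 * (r * t) + t * x) ≤ 4 * r * G * m := by
      rw [div_mul_eq_mul_div, div_le_iff₀ ht]
      nlinarith [mul_le_mul_of_nonneg_left x2 (show 0 ≤ G * m by positivity)]
    have e1 : (4 * r * G * m) ^ 2 ≤ M / 16 := by
      have : (4 * r * G * m) ^ 2 * K1 = M / 16 := by
        linear_combination 16 * r ^ 2 * G ^ 2 * K1 * hm' + M / 16 * (16 * (G * K1) * r + 1) * hr'
      nlinarith [sq_nonneg (4 * r * G * m)]
    have tri : ∀ A B : H, ‖A - B‖ ≤ 4 * r * G * m → ‖B‖ ^ 2 ≤ 2 * ‖A‖ ^ 2 + M / 8 := by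
      intro A B h
      have h1 : ‖B‖ ≤ ‖A‖ + ‖A - B‖ := by simpa using norm_sub_le A (A - B)
      have h4 := pow_le_pow_left₀ (norm_nonneg _) h 2
      nlinarith [pow_le_pow_left₀ (norm_nonneg _) h1 2, sq_nonneg (‖A‖ - ‖A - B‖)]
    have a := tri _ _ ((lip S.hu.1 (by positivity) x1 fun s hs => gu s (sub hs)).trans e0)
    have a' := tri _ _ ((lip S.hv.1 (by positivity) x1 fun s hs => gv s (sub hs)).trans e0)
    constructor
    · rw [nrm, mul_one, add_assoc, div_le_iff₀ (by positivity)]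
      have : M / 8 ≤ PP u v (pt i (ρ + (3 * (r * t) + t * x)) (ε + t)) := by
        unfold PP at h0 ⊢; linarith
      nlinarith [mul_le_mul_of_nonneg_left this (show 0 ≤ k ^ 2 * K2 by positivity)]
    · simp only [dd_rs (p := (x, 1)) (dA S.hu _ _ zero_le_one),
        dd_rs (p := (x, 1)) (dA S.hv _ _ zero_le_one), mul_one, mul_zero, zero_smul, add_zero,
        norm_smul, mul_pow, Real.norm_eq_abs, sq_abs, add_assoc ρ]
      have f := pow_le_pow_left₀ (norm_nonneg _) (gu _ (sub ⟨x1, le_rfl⟩)) 2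
      have f' := pow_le_pow_left₀ (norm_nonneg _) (gv _ (sub ⟨x1, le_rfl⟩)) 2
      have g1 : k ^ 2 * t ^ 2 * (G * m / t) ^ 2 ≤ G ^ 2 * K1 := by
        rw [show k ^ 2 * t ^ 2 * (G * m / t) ^ 2 = G ^ 2 * K1 * (k ^ 2 * M) by
          field_simp; rw [hm']]
        refine mul_le_of_le_one_right (by positivity) ?_
        nlinarith [mul_pos (pow_pos hk 2) hM]
      nlinarith [mul_le_mul_of_nonneg_left f (show 0 ≤ k ^ 2 * t ^ 2 by positivity),
        mul_le_mul_of_nonneg_left f' (show 0 ≤ k ^ 2 * t ^ 2 by positivity)]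

theorem thmA (i : Fin n) {K q a : ℝ} (hK : 1 ≤ K) (hq : 0 < q) (hq1 : q ≤ 1) (ha : 0 ≤ a) :
    ∃ C : ℝ, 0 ≤ C ∧ ∀ (H : Type) [NormedAddCommGroup H] [InnerProductSpace ℝ H] (u v : Y n → H),
      Sl i K u v → ∀ ε : ℝ, 0 < ε → ∀ (x y : E n) (t : ℝ), 0 < t →
        ENNReal.ofReal (PP u v (y, ε + t) ^ q) ≤ ENNReal.ofReal (C * (1 + ‖y - x‖ / t) ^ a) *
          KM a (fun z => ENNReal.ofReal (PP u v (z, ε) ^ q)) x := by
  have hb : 0 ≤ a / q := by positivity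
  have hbq : a / q * q = a := div_mul_cancel₀ _ hq.ne'
  obtain ⟨r, c, hr, hr1, hc, h1⟩ := core i hK hq hq1 hb
  obtain ⟨C, hC, h2⟩ := shell (n := n) i.pos ha hr (by linarith)
  refine ⟨K ^ q * (c⁻¹ * (C * 2 ^ a * K ^ q)), by positivity, fun H _ _ u v S ε hε x => ?_⟩
  obtain ⟨B, hB⟩ := S.bdd ε hε
  have w1 : ∀ ρ t : ℝ, 0 < t → 1 ≤ (1 + |ρ - ‖x‖| / t) ^ (a / q) := fun ρ t ht =>
    Real.one_le_rpow (le_add_of_nonneg_right (by positivity)) hb
  let T : Set ℝ := {s | ∃ ρ t : ℝ, 0 ≤ ρ ∧ 0 < t ∧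
    s = PP u v (pt i ρ (ε + t)) / (1 + |ρ - ‖x‖| / t) ^ (a / q)}
  have Tb : BddAbove T := ⟨B, by
    rintro _ ⟨ρ, t, -, ht, rfl⟩
    exact (div_le_self (PP_nonneg _ _ _) (w1 ρ t ht)).trans (hB _ (le_add_of_nonneg_right ht.le))⟩
  have Tn : T.Nonempty := ⟨_, 0, 1, le_rfl, one_pos, rfl⟩
  have N0 : 0 ≤ sSup T := le_csSup_of_le Tb ⟨0, 1, le_rfl, one_pos, rfl⟩
    (div_nonneg (PP_nonneg _ _ _) (by positivity))
  have all : ∀ (z : E n) (t : ℝ), 0 < t →
      PP u v (z, ε + t) ≤ K * sSup T * (1 + |‖z‖ - ‖x‖| / t) ^ (a / q) := fun z t ht => by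
    have e := le_csSup Tb ⟨‖z‖, t, norm_nonneg _, ht, rfl⟩
    rw [div_le_iff₀ (one_pos.trans_le (w1 _ t ht))] at e
    rw [mul_assoc]
    exact (S.rad z _ _ (by positivity) (by rw [norm_pt, abs_norm])).trans
      (mul_le_mul_of_nonneg_left e (by linarith))
  have main : ENNReal.ofReal (sSup T ^ q) ≤ ENNReal.ofReal (c⁻¹ * (C * 2 ^ a * K ^ q)) *
      KM a (fun z => ENNReal.ofReal (PP u v (z, ε) ^ q)) x := by
    rcases N0.eq_or_lt with h | h
    · rw [← h, Real.zero_rpow hq.ne']; simp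
    obtain ⟨_, ⟨ρ, t, hρ, ht, rfl⟩, h3⟩ := exists_lt_of_lt_csSup Tn (half_lt_self h)
    set w := 1 + |ρ - ‖x‖| / t with hw
    have w0 : 0 < w := by positivity
    have hrt : 0 < r * t := by positivity
    rw [lt_div_iff₀ (by positivity)] at h3
    have h4 := h1 H u v S ε ρ t (sSup T * w ^ (a / q)) hε hρ ht (by positivity) (by linarith)
      fun z τ hz hτ hτ' => (all z τ hτ).trans (by
        rw [mul_assoc K, mul_assoc K, mul_assoc, ← Real.mul_rpow w0.le (by positivity)]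
        refine mul_le_mul_of_nonneg_left (mul_le_mul_of_nonneg_left
          (Real.rpow_le_rpow (by positivity) ?_ hb) N0) (by linarith)
        have e := abs_sub_le ‖z‖ ρ ‖x‖
        rw [hw, add_mul, one_mul, show |ρ - ‖x‖| / t * (3 * t / τ) = 3 * |ρ - ‖x‖| / τ by
          field_simp, ← add_div, le_div_iff₀ hτ, add_mul, div_mul_cancel₀ _ hτ.ne']
        linarith [abs_nonneg (ρ - ‖x‖)])
    have cw : ∀ {w : Y n → H}, Grad.Harm {X | 0 < X.2} w → Continuous fun s => w (pt i s ε) :=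
      fun hw => hw.1.continuousOn.comp_continuous (by unfold pt; fun_prop) fun _ => hε
    have h5 := h2 (fun s => PP u v (pt i s ε) ^ q)
      ((((cw S.hu).norm.pow 2).add ((cw S.hv).norm.pow 2)).rpow_const fun _ => Or.inr hq.le)
      (fun s => Real.rpow_nonneg (PP_nonneg _ _ _) _) t (ρ + 3 * (r * t)) ht (by linarith) x
    have h6 : ∫⁻ z, ENNReal.ofReal (ker n a t (z - x)) * ENNReal.ofReal (PP u v (pt i ‖z‖ ε) ^ q) ≤
        ENNReal.ofReal (K ^ q) * KM a (fun z => ENNReal.ofReal (PP u v (z, ε) ^ q)) x := by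
      refine le_trans ?_ (mul_le_mul_right (le_KM a _ x ht) _)
      rw [← lintegral_const_mul' _ _ ENNReal.ofReal_ne_top]
      refine lintegral_mono fun z => ?_
      rw [mul_left_comm, ← ENNReal.ofReal_mul (p := K ^ q) (by positivity),
        ← Real.mul_rpow (by linarith) (PP_nonneg _ _ _)]
      exact mul_le_mul_right (ENNReal.ofReal_le_ofReal (Real.rpow_le_rpow (PP_nonneg _ _ _)
        (S.rad _ z ε hε (by rw [norm_pt, abs_norm])) hq.le)) _
    have h7 : (1 + |ρ + 3 * (r * t) - ‖x‖| / t) ^ a ≤ 2 ^ a * w ^ a := by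
      rw [← Real.mul_rpow (by norm_num) w0.le]
      refine Real.rpow_le_rpow (by positivity) ?_ ha
      have e : |ρ + 3 * (r * t) - ‖x‖| ≤ |ρ - ‖x‖| + t := by
        rw [add_sub_right_comm]
        exact (abs_add_le _ _).trans (by rw [abs_of_pos (a := 3 * (r * t)) (by positivity)]; nlinarith)
      have e' := div_le_div_of_nonneg_right e ht.le
      rw [add_div, div_self ht.ne'] at e'
      have : 0 ≤ |ρ - ‖x‖| / t := by positivity
      linarith
    have h8 := mul_le_mul_right ((ENNReal.ofReal_le_ofReal h4).trans (h5.trans (mul_le_mul'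
      (ENNReal.ofReal_le_ofReal (mul_le_mul_of_nonneg_left h7 hC.le)) h6)))
      (ENNReal.ofReal (c * w ^ a)⁻¹)
    rw [← ENNReal.ofReal_mul (by positivity), ← mul_assoc (ENNReal.ofReal _),
      ← ENNReal.ofReal_mul (by positivity), ← mul_assoc (ENNReal.ofReal _),
      ← ENNReal.ofReal_mul (by positivity), Real.mul_rpow N0 (by positivity),
      ← Real.rpow_mul w0.le, hbq] at h8
    refine (le_of_eq (congrArg ENNReal.ofReal ?_)).trans (h8.trans (le_of_eq ?_))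
    · field_simp
    · congr 2
      field_simp
  intro y t ht
  have e1 : PP u v (y, ε + t) ^ q ≤ K ^ q * (1 + ‖y - x‖ / t) ^ a * sSup T ^ q := by
    refine (Real.rpow_le_rpow (PP_nonneg _ _ _) (all y t ht) hq.le).trans ?_
    rw [Real.mul_rpow (by positivity) (by positivity), Real.mul_rpow (by linarith) N0,
      ← Real.rpow_mul (by positivity), hbq, mul_right_comm]
    gcongr
    exact abs_norm_sub_norm_le _ _
  refine (ENNReal.ofReal_le_ofReal e1).trans ?_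
  rw [ENNReal.ofReal_mul (by positivity)]
  refine (mul_le_mul_right main _).trans (le_of_eq ?_)
  rw [← mul_assoc, ← ENNReal.ofReal_mul (by positivity)]
  congr 2
  ring

end Pool.Agent.RD7
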