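import Mathlib

set_option autoImplicit false

open Set Filter Topology MeasureTheory Real
open scoped ContDiff RealInnerProductSpace

noncomputable section

namespace Pool.Agent.RD7

section alg

variable {H : Type} [NormedAddCommGroup H] [InnerProductSpace ℝ H]

lemma cs2 (u v a b : H) : (⟪u, a⟫ + ⟪v, b⟫) ^ 2 + (⟪v, a⟫ - ⟪u, b⟫) ^ 2 ≤
    (‖u‖ ^ 2 + ‖v‖ ^ 2) * (‖a‖ ^ 2 + ‖b‖ ^ 2) := by
  obtain ⟨p, hp⟩ : ∃ p, p = ⟪u, a⟫ + ⟪v, b⟫ := ⟨_, rfl⟩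
  obtain ⟨r, hr⟩ : ∃ r, r = ⟪v, a⟫ - ⟪u, b⟫ := ⟨_, rfl⟩
  rw [← hp, ← hr]
  have h1 : p ^ 2 + r ^ 2 = ⟪u, p • a - r • b⟫ + ⟪v, p • b + r • a⟫ := by
    simp only [inner_sub_right, inner_add_right, real_inner_smul_right]
    linear_combination p * hp + r * hr
  have h2 : ‖p • a - r • b‖ ^ 2 + ‖p • b + r • a‖ ^ 2 = (p ^ 2 + r ^ 2) * (‖a‖ ^ 2 + ‖b‖ ^ 2) := by
    rw [norm_sub_sq_real, norm_add_sq_real]
    simp only [norm_smul, mul_pow, Real.norm_eq_abs, sq_abs, real_inner_smul_left,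
      real_inner_smul_right, real_inner_comm a b]
    ring
  have h3 := real_inner_le_norm u (p • a - r • b)
  have h4 := real_inner_le_norm v (p • b + r • a)
  have h5 : (p ^ 2 + r ^ 2) ^ 2 ≤
      (‖u‖ ^ 2 + ‖v‖ ^ 2) * (‖p • a - r • b‖ ^ 2 + ‖p • b + r • a‖ ^ 2) := by
    have h6 : (p ^ 2 + r ^ 2) ^ 2 ≤ (‖u‖ * ‖p • a - r • b‖ + ‖v‖ * ‖p • b + r • a‖) ^ 2 :=
      pow_le_pow_left₀ (by positivity) (by linarith) 2
    nlinarith [sq_nonneg (‖u‖ * ‖p • b + r • a‖ - ‖v‖ * ‖p • a - r • b‖)]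
  rw [h2] at h5
  rcases (show 0 ≤ p ^ 2 + r ^ 2 by positivity).eq_or_lt with h | h
  · rw [← h]; positivity
  · exact le_of_mul_le_mul_left (by linarith) h

lemma div_ge (u v u1 u2 v1 v2 : H) {κ D : ℝ} (hκ : 0 ≤ κ) (hD : 0 < D)
    (hD' : ‖u‖ ^ 2 + ‖v‖ ^ 2 ≤ D)
    (hg : ‖u1 - v2‖ ^ 2 + ‖u2 + v1‖ ^ 2 ≤ κ * (‖u‖ ^ 2 + ‖v‖ ^ 2)) :
    -κ ≤ ((2 * ⟪u1, v2⟫ - 2 * ⟪v1, u2⟫) * D
      - (⟪u, v2⟫ - ⟪v, u2⟫) * (2 * (⟪u, u1⟫ + ⟪v, v1⟫))
      - (⟪v, u1⟫ - ⟪u, v1⟫) * (2 * (⟪u, u2⟫ + ⟪v, v2⟫))) / D ^ 2 := by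
  have h1 := cs2 u v (u1 + v2) (v1 - u2)
  have h2 : (‖u‖ ^ 2 + ‖v‖ ^ 2) * (‖u1 + v2‖ ^ 2 + ‖v1 - u2‖ ^ 2) ≤
      D * (‖u1 + v2‖ ^ 2 + ‖v1 - u2‖ ^ 2) := mul_le_mul_of_nonneg_right hD' (by positivity)
  have h3 : D * (‖u1 - v2‖ ^ 2 + ‖u2 + v1‖ ^ 2) ≤ D * (κ * D) :=
    mul_le_mul_of_nonneg_left (hg.trans (mul_le_mul_of_nonneg_left hD' hκ)) hD.le
  rw [le_div_iff₀ (by positivity)]
  have h4 : 0 ≤ κ * D ^ 2 := by positivity
  simp only [norm_add_sq_real, norm_sub_sq_real, inner_add_right, inner_sub_right,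
    real_inner_comm v1 u2] at h1 h2 h3 ⊢
  nlinarith [sq_nonneg (⟪u, u1⟫ - ⟪u, v2⟫ + ⟪v, u2⟫ + ⟪v, v1⟫),
    sq_nonneg (⟪u, u2⟫ + ⟪u, v1⟫ - ⟪v, u1⟫ + ⟪v, v2⟫)]

lemma err_le (u v g1 g2 : H) {κ D : ℝ} (hκ : 0 ≤ κ) (hD : 0 < D) (hD' : ‖u‖ ^ 2 + ‖v‖ ^ 2 ≤ D)
    (hg : ‖g1‖ ^ 2 + ‖g2‖ ^ 2 ≤ κ * (‖u‖ ^ 2 + ‖v‖ ^ 2)) :
    |(⟪u, g1⟫ + ⟪v, g2⟫) / D| ≤ 1 + κ ∧ |(⟪v, g1⟫ - ⟪u, g2⟫) / D| ≤ 1 + κ := by
  have h1 := cs2 u v g1 g2
  have h2 : (‖u‖ ^ 2 + ‖v‖ ^ 2) * (‖g1‖ ^ 2 + ‖g2‖ ^ 2) ≤ D * (κ * D) :=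
    mul_le_mul hD' (hg.trans (mul_le_mul_of_nonneg_left hD' hκ)) (by positivity) hD.le
  have h3 : D * (κ * D) ≤ ((1 + κ) * D) ^ 2 := by nlinarith [mul_nonneg hκ (sq_nonneg D), sq_nonneg (κ * D)]
  constructor <;> rw [abs_div, abs_of_pos hD, div_le_iff₀ hD] <;>
    refine abs_le_of_sq_le_sq ?_ (by positivity)
  · nlinarith [sq_nonneg (⟪v, g1⟫ - ⟪u, g2⟫)]
  · nlinarith [sq_nonneg (⟪u, g1⟫ + ⟪v, g2⟫)]

end alg

section calc'

variable {W : Type} [NormedAddCommGroup W] [NormedSpace ℝ W]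

/-- directional derivative in the plane -/
def dd (w : ℝ × ℝ) (f : ℝ × ℝ → W) (p : ℝ × ℝ) : W := fderiv ℝ f p w

variable {U : Set (ℝ × ℝ)} {f : ℝ × ℝ → W} {p : ℝ × ℝ}

lemma sm_dd (hU : IsOpen U) (hf : ContDiffOn ℝ ∞ f U) (w : ℝ × ℝ) : ContDiffOn ℝ ∞ (dd w f) U :=
  (hf.fderiv_of_isOpen hU (m := ∞) (le_of_eq rfl)).clm_apply contDiffOn_const

lemma dAt (hU : IsOpen U) (hf : ContDiffOn ℝ ∞ f U) (hp : p ∈ U) : DifferentiableAt ℝ f p :=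
  (hf.contDiffAt (hU.mem_nhds hp)).differentiableAt (by simp)

lemma ld (hf : DifferentiableAt ℝ f p) (w : ℝ × ℝ) :
    HasDerivAt (fun s : ℝ => f (p + s • w)) (dd w f p) 0 :=
  hf.hasFDerivAt.hasLineDerivAt w

lemma dd_comm (hU : IsOpen U) (hf : ContDiffOn ℝ ∞ f U) (hp : p ∈ U) (a b : ℝ × ℝ) :
    dd a (dd b f) p = dd b (dd a f) p := by
  have h1 := dAt hU (hf.fderiv_of_isOpen hU (m := ∞) (le_of_eq rfl)) hp
  have h2 : ∀ a b, dd a (dd b f) p = fderiv ℝ (fderiv ℝ f) p a b := fun a b => by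
    show fderiv ℝ (fun X => fderiv ℝ f X b) p a = _
    rw [fderiv_clm_apply h1 (differentiableAt_const _)]
    simp
  rw [h2, h2]
  exact ((hf.contDiffAt (hU.mem_nhds hp)).isSymmSndFDerivAt (by
    rw [minSmoothness_of_isRCLikeNormedField]; exact WithTop.coe_le_coe.2 le_top)).eq a b

end calc'

variable {H : Type} [NormedAddCommGroup H] [InnerProductSpace ℝ H]

/-- regularised square norm -/
def DD (u v : ℝ × ℝ → H) (δ : ℝ) (p : ℝ × ℝ) : ℝ := ⟪u p, u p⟫ + ⟪v p, v p⟫ + δ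

/-- first component of the Green field -/
def Z1 (u v : ℝ × ℝ → H) (δ l : ℝ) (p : ℝ × ℝ) : ℝ :=
  cos (l * p.1) * sinh (l * p.2) *
      ((⟪u p, dd (0, 1) v p⟫ - ⟪v p, dd (0, 1) u p⟫) / DD u v δ p)
    + log (DD u v δ p) / 2 * (l * sin (l * p.1) * sinh (l * p.2))

/-- second component of the Green field -/
def Z2 (u v : ℝ × ℝ → H) (δ l : ℝ) (p : ℝ × ℝ) : ℝ :=
  cos (l * p.1) * sinh (l * p.2) *
      ((⟪v p, dd (1, 0) u p⟫ - ⟪u p, dd (1, 0) v p⟫) / DD u v δ p)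
    - log (DD u v δ p) / 2 * (l * cos (l * p.1) * cosh (l * p.2))

variable {U : Set (ℝ × ℝ)} {u v : ℝ × ℝ → H} {p : ℝ × ℝ} {δ l κ : ℝ}

lemma DD_eq (u v : ℝ × ℝ → H) (δ : ℝ) (p : ℝ × ℝ) : DD u v δ p = ‖u p‖ ^ 2 + ‖v p‖ ^ 2 + δ := by
  simp only [DD, real_inner_self_eq_norm_sq]

lemma DD_pos (hδ : 0 < δ) (p : ℝ × ℝ) : 0 < DD u v δ p := by rw [DD_eq]; positivity

lemma sm_DD (hu : ContDiffOn ℝ ∞ u U) (hv : ContDiffOn ℝ ∞ v U) : ContDiffOn ℝ ∞ (DD u v δ) U :=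
  ((hu.inner ℝ hu).add (hv.inner ℝ hv)).add contDiffOn_const

lemma sm_Z1 (hU : IsOpen U) (hu : ContDiffOn ℝ ∞ u U) (hv : ContDiffOn ℝ ∞ v U) (hδ : 0 < δ) :
    ContDiffOn ℝ ∞ (Z1 u v δ l) U :=
  (ContDiffOn.mul (by fun_prop) (((hu.inner ℝ (sm_dd hU hv _)).sub (hv.inner ℝ (sm_dd hU hu _))).div
    (sm_DD hu hv) fun p _ => (DD_pos hδ p).ne')).add
    ((((sm_DD hu hv).log fun p _ => (DD_pos hδ p).ne').div_const 2).mul (by fun_prop))

lemma sm_Z2 (hU : IsOpen U) (hu : ContDiffOn ℝ ∞ u U) (hv : ContDiffOn ℝ ∞ v U) (hδ : 0 < δ) :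
    ContDiffOn ℝ ∞ (Z2 u v δ l) U :=
  (ContDiffOn.mul (by fun_prop) (((hv.inner ℝ (sm_dd hU hu _)).sub (hu.inner ℝ (sm_dd hU hv _))).div
    (sm_DD hu hv) fun p _ => (DD_pos hδ p).ne')).sub
    ((((sm_DD hu hv).log fun p _ => (DD_pos hδ p).ne').div_const 2).mul (by fun_prop))

lemma div_Z (hU : IsOpen U) (hu : ContDiffOn ℝ ∞ u U) (hv : ContDiffOn ℝ ∞ v U) (hδ : 0 < δ)
    (hp : p ∈ U) :
    dd (1, 0) (Z1 u v δ l) p + dd (0, 1) (Z2 u v δ l) p =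
      cos (l * p.1) * sinh (l * p.2) *
        (((2 * ⟪dd (1, 0) u p, dd (0, 1) v p⟫ - 2 * ⟪dd (1, 0) v p, dd (0, 1) u p⟫) * DD u v δ p
          - (⟪u p, dd (0, 1) v p⟫ - ⟪v p, dd (0, 1) u p⟫) *
            (2 * (⟪u p, dd (1, 0) u p⟫ + ⟪v p, dd (1, 0) v p⟫))
          - (⟪v p, dd (1, 0) u p⟫ - ⟪u p, dd (1, 0) v p⟫) *
            (2 * (⟪u p, dd (0, 1) u p⟫ + ⟪v p, dd (0, 1) v p⟫))) / DD u v δ p ^ 2)
      + l * sin (l * p.1) * sinh (l * p.2) * ((⟪u p, dd (1, 0) u p - dd (0, 1) v p⟫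
          + ⟪v p, dd (0, 1) u p + dd (1, 0) v p⟫) / DD u v δ p)
      + l * cos (l * p.1) * cosh (l * p.2) * ((⟪v p, dd (1, 0) u p - dd (0, 1) v p⟫
          - ⟪u p, dd (0, 1) u p + dd (1, 0) v p⟫) / DD u v δ p) := by
  have a := fun w => ld (dAt hU hu hp) w
  have b := fun w => ld (dAt hU hv hp) w
  have a' := fun w' w => ld (dAt hU (sm_dd hU hu w') hp) w
  have b' := fun w' w => ld (dAt hU (sm_dd hU hv w') hp) w
  have x : ∀ w : ℝ × ℝ, HasDerivAt (fun s : ℝ => l * (p + s • w).1) (l * w.1) 0 := fun w => by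
    simpa using (((hasDerivAt_id (0 : ℝ)).mul_const w.1).const_add p.1).const_mul l
  have y : ∀ w : ℝ × ℝ, HasDerivAt (fun s : ℝ => l * (p + s • w).2) (l * w.2) 0 := fun w => by
    simpa using (((hasDerivAt_id (0 : ℝ)).mul_const w.2).const_add p.2).const_mul l
  have d : ∀ w, HasDerivAt (fun s : ℝ => DD u v δ (p + s • w)) _ 0 := fun w =>
    (((a w).inner ℝ (a w)).add ((b w).inner ℝ (b w))).add_const δ
  have n := fun w : ℝ × ℝ => (DD_pos (u := u) (v := v) hδ (p + (0 : ℝ) • w)).ne'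
  have h1 := (ld (dAt hU (sm_Z1 (l := l) hU hu hv hδ) hp) (1, 0)).unique
    ((((x _).cos.mul (y _).sinh).mul (((((a _).inner ℝ (b' _ _)).sub
      ((b _).inner ℝ (a' _ _)))).div (d _) (n _))).add
      ((((d _).log (n _)).div_const 2).mul (((x _).sin.const_mul l).mul (y _).sinh)))
  have h2 := (ld (dAt hU (sm_Z2 (l := l) hU hu hv hδ) hp) (0, 1)).unique
    ((((x _).cos.mul (y _).sinh).mul (((((b _).inner ℝ (a' _ _)).sub
      ((a _).inner ℝ (b' _ _)))).div (d _) (n _))).sub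
      ((((d _).log (n _)).div_const 2).mul (((x _).cos.const_mul l).mul (y _).cosh)))
  rw [h1, h2]
  have n0 := (DD_pos (u := u) (v := v) hδ p).ne'
  simp only [zero_smul, add_zero, Pi.mul_apply, Pi.div_apply, Pi.sub_apply,
    dd_comm hU hu hp (0, 1) (1, 0), dd_comm hU hv hp (0, 1) (1, 0), inner_sub_right,
    inner_add_right, real_inner_comm (u p), real_inner_comm (v p) (dd _ _ _),
    real_inner_comm (dd (1, 0) u p) (dd (0, 1) v p),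
    real_inner_comm (dd (1, 0) v p) (dd (0, 1) u p)]
  field_simp
  ring

lemma sinh_le {x y : ℝ} (hx : 0 ≤ x) (hy : x ≤ y) : sinh x ≤ x * exp y := by
  have h1 := Real.add_one_le_exp (-(2 * x))
  have h2 : exp (-x) = exp x * exp (-(2 * x)) := by rw [← Real.exp_add]; congr 1; ring
  have h3 := Real.exp_le_exp.2 hy
  rw [Real.sinh_eq, h2]
  nlinarith [Real.exp_pos x]

lemma cosh_le {x y : ℝ} (hx : 0 ≤ x) (hy : x ≤ y) : cosh x ≤ exp y := by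
  have h1 : exp (-x) ≤ exp y := Real.exp_le_exp.2 (by linarith)
  have h3 := Real.exp_le_exp.2 hy
  rw [Real.cosh_eq]
  linarith

lemma div_Z_ge (hU : IsOpen U) (hu : ContDiffOn ℝ ∞ u U) (hv : ContDiffOn ℝ ∞ v U) (hδ : 0 < δ)
    (hp : p ∈ U) (hκ : 0 ≤ κ) (hl : 0 < l) (hc : 0 ≤ cos (l * p.1)) (h0 : 0 ≤ p.2) (h1 : p.2 ≤ 1)
    (hg : ‖dd (1, 0) u p - dd (0, 1) v p‖ ^ 2 + ‖dd (0, 1) u p + dd (1, 0) v p‖ ^ 2 ≤
      κ * (‖u p‖ ^ 2 + ‖v p‖ ^ 2)) :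
    -((1 + κ) * (l * exp l * (2 + l))) ≤
      dd (1, 0) (Z1 u v δ l) p + dd (0, 1) (Z2 u v δ l) p := by
  have hD := DD_pos (u := u) (v := v) hδ p
  have hD' : ‖u p‖ ^ 2 + ‖v p‖ ^ 2 ≤ DD u v δ p := by rw [DD_eq]; linarith
  have a := div_ge _ _ _ _ _ _ hκ hD hD' hg
  obtain ⟨b, c⟩ := err_le _ _ _ _ hκ hD hD' hg
  rw [div_Z hU hu hv hδ hp]
  have x0 : 0 ≤ l * p.2 := by positivity
  have x1 : l * p.2 ≤ l := by nlinarith
  have s0 : 0 ≤ sinh (l * p.2) := Real.sinh_nonneg_iff.2 x0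
  have s1 : sinh (l * p.2) ≤ l * exp l :=
    (sinh_le x0 x1).trans (mul_le_mul_of_nonneg_right x1 (Real.exp_pos _).le)
  have c0 : 0 ≤ cos (l * p.1) * sinh (l * p.2) := mul_nonneg hc s0
  have c1 : cos (l * p.1) * sinh (l * p.2) ≤ l * exp l :=
    (mul_le_of_le_one_left s0 (cos_le_one _)).trans s1
  have e1 := mul_le_mul_of_nonneg_left a c0
  have e1' := mul_le_mul_of_nonneg_right c1 hκ
  have e2 : |l * sin (l * p.1) * sinh (l * p.2)| ≤ l * (l * exp l) := by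
    rw [abs_mul, abs_mul, abs_of_pos hl, abs_of_nonneg s0]
    exact mul_le_mul (mul_le_of_le_one_right hl.le (abs_sin_le_one _)) s1 s0 hl.le
  have e3 : |l * cos (l * p.1) * cosh (l * p.2)| ≤ l * exp l := by
    rw [abs_mul, abs_mul, abs_of_pos hl, abs_of_pos (Real.cosh_pos _)]
    exact mul_le_mul (mul_le_of_le_one_right hl.le (abs_cos_le_one _)) (cosh_le x0 x1)
      (Real.cosh_pos _).le hl.le
  have e4 := neg_abs_le _ |>.trans' (neg_le_neg ((abs_mul _ _).le.trans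
    (mul_le_mul e2 b (abs_nonneg _) (by positivity))))
  have e5 := neg_abs_le _ |>.trans' (neg_le_neg ((abs_mul _ _).le.trans
    (mul_le_mul e3 c (abs_nonneg _) (by positivity))))
  have : 0 ≤ l * exp l := by positivity
  nlinarith

lemma side_le {D τ A : ℝ} (hl : 0 < l) (hA : 0 ≤ A) (h0 : 0 ≤ τ) (h1 : τ ≤ 1) (hD : 0 < D)
    (h : 0 < τ → D ≤ 2 * τ ^ (-A)) :
    log D / 2 * (l * sinh (l * τ)) ≤ (1 + A) * (l * (l * exp l)) := by
  rcases h0.eq_or_lt with rfl | h0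
  · simp only [mul_zero, Real.sinh_zero]; positivity
  have x0 : 0 ≤ l * τ := by positivity
  have s0 : 0 ≤ sinh (l * τ) := Real.sinh_nonneg_iff.2 x0
  have s1 : sinh (l * τ) ≤ l * τ * exp l := sinh_le x0 (by nlinarith)
  have e1 : log D ≤ (1 + A) / τ := by
    refine (Real.log_le_log hD (h h0)).trans ?_
    rw [Real.log_mul two_ne_zero (by positivity), Real.log_rpow h0, add_div]
    have a := Real.log_le_sub_one_of_pos two_pos
    have b := Real.log_le_sub_one_of_pos (inv_pos.2 h0)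
    rw [Real.log_inv] at b
    have c : 1 ≤ 1 / τ := by rw [le_div_iff₀ h0]; linarith
    have d := mul_le_mul_of_nonneg_left b hA
    rw [div_eq_mul_inv A]
    linarith
  calc log D / 2 * (l * sinh (l * τ)) ≤ (1 + A) / τ * (l * sinh (l * τ)) :=
        mul_le_mul_of_nonneg_right (by
          have : 0 ≤ (1 + A) / τ := by positivity
          linarith) (by positivity)
    _ ≤ (1 + A) / τ * (l * (l * τ * exp l)) := by gcongr
    _ = _ := by field_simp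

lemma top_le {σ Γ : ℝ} (hδ : 0 < δ) (hl : 0 < l) (hσ : 0 < σ) (hΓ : 0 ≤ Γ)
    (hc : 0 ≤ cos (l * p.1)) (h1 : p.2 = 1) (hs : σ ≤ ‖u p‖ ^ 2 + ‖v p‖ ^ 2)
    (hG : ‖dd (1, 0) u p‖ ^ 2 + ‖dd (1, 0) v p‖ ^ 2 ≤ Γ) :
    Z2 u v δ l p ≤ l * exp l * (1 + Γ / σ + |log σ|) := by
  have hD := DD_pos (u := u) (v := v) hδ p
  have hD' : ‖u p‖ ^ 2 + ‖v p‖ ^ 2 ≤ DD u v δ p := by rw [DD_eq]; linarith
  have a := (err_le (u p) (v p) (dd (1, 0) u p) (dd (1, 0) v p) (κ := Γ / σ) (by positivity) hD hD'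
    (hG.trans (by rw [div_mul_eq_mul_div, le_div_iff₀ hσ]; nlinarith))).2
  have s0 : 0 ≤ sinh l := Real.sinh_nonneg_iff.2 hl.le
  have c0 : 0 ≤ cos (l * p.1) * sinh l := mul_nonneg hc s0
  have c1 : cos (l * p.1) * sinh l ≤ l * exp l :=
    (mul_le_of_le_one_left s0 (cos_le_one _)).trans (sinh_le hl.le le_rfl)
  have e1 := (mul_le_mul_of_nonneg_left (le_of_abs_le a) c0).trans
    (mul_le_mul_of_nonneg_right c1 (by positivity))
  have c2 : 0 ≤ l * cos (l * p.1) * cosh l := mul_nonneg (mul_nonneg hl.le hc) (Real.cosh_pos _).le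
  have c3 : l * cos (l * p.1) * cosh l ≤ l * exp l :=
    mul_le_mul (mul_le_of_le_one_right hl.le (cos_le_one _)) (cosh_le hl.le le_rfl)
      (Real.cosh_pos _).le hl.le
  have e2 : -|log σ| ≤ log (DD u v δ p) / 2 := by
    have := Real.log_le_log hσ (hs.trans hD')
    linarith [neg_abs_le (log σ), abs_nonneg (log σ)]
  have e3 := mul_le_mul_of_nonneg_right e2 c2
  have e4 := mul_le_mul_of_nonneg_left c3 (abs_nonneg (log σ))
  unfold Z2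
  rw [h1, mul_one]
  nlinarith

theorem twoD {κ q A r σ Γ : ℝ} (hκ : 0 ≤ κ) (hq : 0 < q) (hq1 : q ≤ 1) (hA : 0 ≤ A) (hr : 0 < r)
    (hσ : 0 < σ) (hΓ : 0 ≤ Γ) : ∃ c : ℝ, 0 < c ∧ ∀ (H : Type) [NormedAddCommGroup H]
    [InnerProductSpace ℝ H] (U : Set (ℝ × ℝ)) (u v : ℝ × ℝ → H), IsOpen U →
    Icc (-r) r ×ˢ Icc 0 1 ⊆ U → ContDiffOn ℝ ∞ u U → ContDiffOn ℝ ∞ v U →
    (∀ x ∈ Icc (-r) r, ∀ τ ∈ Icc (0 : ℝ) 1,
      ‖dd (1, 0) u (x, τ) - dd (0, 1) v (x, τ)‖ ^ 2 + ‖dd (0, 1) u (x, τ) + dd (1, 0) v (x, τ)‖ ^ 2 ≤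
        κ * (‖u (x, τ)‖ ^ 2 + ‖v (x, τ)‖ ^ 2)) →
    (∀ x ∈ Icc (-r) r, ∀ τ ∈ Ioc (0 : ℝ) 1, ‖u (x, τ)‖ ^ 2 + ‖v (x, τ)‖ ^ 2 ≤ τ ^ (-A)) →
    (∀ x ∈ Icc (-r) r, σ ≤ ‖u (x, 1)‖ ^ 2 + ‖v (x, 1)‖ ^ 2 ∧
      ‖dd (1, 0) u (x, 1)‖ ^ 2 + ‖dd (1, 0) v (x, 1)‖ ^ 2 ≤ Γ) →
    c ≤ ∫ x in (-r)..r, (‖u (x, 0)‖ ^ 2 + ‖v (x, 0)‖ ^ 2) ^ q := by
  obtain ⟨l, hl, hlr⟩ : ∃ l : ℝ, 0 < l ∧ l * r = π / 2 :=
    ⟨π / 2 / r, by positivity, by field_simp⟩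
  obtain ⟨C, hC0, hC⟩ : ∃ C : ℝ, 0 ≤ C ∧ C = 2 * r * ((1 + κ) * (l * exp l * (2 + l)))
      + 2 * r * (l * exp l * (1 + Γ / σ + |log σ|)) + 2 * ((1 + A) * (l * (l * exp l))) :=
    ⟨_, by positivity, rfl⟩
  obtain ⟨s, hs, hs'⟩ : ∃ s : ℝ, 0 < s ∧ log s = -(q * C) - 1 := ⟨exp _, exp_pos _, log_exp _⟩
  have hs1 : s ≤ 1 := by
    rw [← Real.log_nonpos_iff hs.le, hs']; nlinarith [mul_nonneg hq.le hC0]
  obtain ⟨δ, hδ, hδ1, hδq⟩ : ∃ δ : ℝ, 0 < δ ∧ δ ≤ 1 ∧ δ ^ q = s / π := by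
    refine ⟨(s / π) ^ q⁻¹, by positivity, Real.rpow_le_one (by positivity) ?_ (by positivity),
      Real.rpow_inv_rpow (by positivity) hq.ne'⟩
    rw [div_le_one pi_pos]; linarith [pi_gt_three]
  refine ⟨s / l, by positivity, fun H _ _ U u v hU hR hu hv hg hb ht => ?_⟩
  have hrr : -r ≤ r := by linarith
  have hcos : ∀ x ∈ Icc (-r) r, 0 ≤ cos (l * x) := fun x hx =>
    cos_nonneg_of_mem_Icc ⟨by nlinarith [hx.1], by nlinarith [hx.2]⟩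
  have z1 := sm_Z1 (l := l) hU hu hv hδ
  have z2 := sm_Z2 (l := l) hU hu hv hδ
  have cd : ContinuousOn (fun p => dd (1, 0) (Z1 u v δ l) p + dd (0, 1) (Z2 u v δ l) p)
      (Icc (-r) r ×ˢ Icc 0 1) := ((sm_dd hU z1 _).add (sm_dd hU z2 _)).continuousOn.mono hR
  have hi := cd.integrableOn_compact (μ := volume) (isCompact_Icc.prod isCompact_Icc)
  have key := integral2_divergence_prod_of_hasFDerivAt (Z1 u v δ l) (Z2 u v δ l)
    (fderiv ℝ (Z1 u v δ l)) (fderiv ℝ (Z2 u v δ l)) (-r) 0 r 1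
  simp only [uIcc_of_le hrr, uIcc_of_le (zero_le_one' ℝ), min_eq_left hrr, max_eq_right hrr,
    min_eq_left (zero_le_one' ℝ), max_eq_right (zero_le_one' ℝ)] at key
  have sub : Ioo (-r) r ×ˢ Ioo (0 : ℝ) 1 ⊆ U :=
    (Set.prod_mono Ioo_subset_Icc_self Ioo_subset_Icc_self).trans hR
  replace key := key (z1.continuousOn.mono hR) (z2.continuousOn.mono hR)
    (fun p hp => (dAt hU z1 (sub hp)).hasFDerivAt) (fun p hp => (dAt hU z2 (sub hp)).hasFDerivAt) hi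
  have hz : ∀ {g : ℝ × ℝ → ℝ}, ContinuousOn g (Icc (-r) r ×ˢ Icc 0 1) → ∀ τ ∈ Icc (0 : ℝ) 1,
      ContinuousOn (fun x => g (x, τ)) (Icc (-r) r) := fun hg τ hτ =>
    hg.comp (by fun_prop) fun x hx => ⟨hx, hτ⟩
  have vt : ∀ {g : ℝ × ℝ → ℝ}, ContinuousOn g (Icc (-r) r ×ˢ Icc 0 1) → ∀ x ∈ Icc (-r) r,
      IntervalIntegrable (fun τ => g (x, τ)) volume 0 1 := fun hg x hx =>
    (hg.comp (by fun_prop) fun τ hτ => ⟨hx, hτ⟩ :
      ContinuousOn _ (Icc (0 : ℝ) 1)).intervalIntegrable_of_Icc zero_le_one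
  have k1 : 2 * r * -((1 + κ) * (l * exp l * (2 + l))) ≤ ∫ x in (-r)..r, ∫ y in (0 : ℝ)..1,
      fderiv ℝ (Z1 u v δ l) (x, y) (1, 0) + fderiv ℝ (Z2 u v δ l) (x, y) (0, 1) := by
    have i1 : IntervalIntegrable (fun x => ∫ y in (0 : ℝ)..1,
        fderiv ℝ (Z1 u v δ l) (x, y) (1, 0) + fderiv ℝ (Z2 u v δ l) (x, y) (0, 1)) volume (-r) r := by
      rw [intervalIntegrable_iff_integrableOn_Icc_of_le hrr]
      simp only [intervalIntegral.integral_of_le zero_le_one, ← integral_Icc_eq_integral_Ioc]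
      rw [IntegrableOn, Measure.volume_eq_prod, ← Measure.prod_restrict] at hi
      exact hi.integral_prod_left
    have := intervalIntegral.integral_mono_on hrr (intervalIntegrable_const
      (c := -((1 + κ) * (l * exp l * (2 + l))))) i1 fun x hx => by
        have := intervalIntegral.integral_mono_on zero_le_one (intervalIntegrable_const
          (c := -((1 + κ) * (l * exp l * (2 + l))))) (vt cd x hx) fun τ hτ =>
            div_Z_ge hU hu hv hδ (hR ⟨hx, hτ⟩) hκ hl (hcos x hx) hτ.1 hτ.2 (hg x hx τ hτ)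
        simpa [dd] using this
    rw [intervalIntegral.integral_const, smul_eq_mul] at this
    linarith
  have k2 : ∫ x in (-r)..r, Z2 u v δ l (x, 1) ≤ 2 * r * (l * exp l * (1 + Γ / σ + |log σ|)) := by
    have := intervalIntegral.integral_mono_on (μ := volume) hrr
      ((hz (z2.continuousOn.mono hR) 1 ⟨zero_le_one, le_rfl⟩).intervalIntegrable_of_Icc hrr)
      intervalIntegrable_const fun x hx =>
        top_le (p := (x, 1)) hδ hl hσ hΓ (hcos x hx) rfl (ht x hx).1 (ht x hx).2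
    rw [intervalIntegral.integral_const, smul_eq_mul] at this
    linarith
  have sd : ∀ x ∈ Icc (-r) r, ∀ τ ∈ Icc (0 : ℝ) 1, log (DD u v δ (x, τ)) / 2 * (l * sinh (l * τ)) ≤
      (1 + A) * (l * (l * exp l)) := fun x hx τ hτ =>
    side_le hl hA hτ.1 hτ.2 (DD_pos hδ _) fun h0 => by
      have a := hb x hx τ ⟨h0, hτ.2⟩
      have b := Real.one_le_rpow_of_pos_of_le_one_of_nonpos h0 hτ.2 (neg_nonpos.2 hA)
      rw [DD_eq]; linarith
  have k3 : ∫ y in (0 : ℝ)..1, Z1 u v δ l (r, y) ≤ (1 + A) * (l * (l * exp l)) := by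
    have := intervalIntegral.integral_mono_on zero_le_one
      (vt (z1.continuousOn.mono hR) r ⟨hrr, le_rfl⟩)
      (intervalIntegrable_const (c := (1 + A) * (l * (l * exp l)))) fun τ hτ => by
        simpa [Z1, hlr] using sd r ⟨hrr, le_rfl⟩ τ hτ
    simpa using this
  have k4 : -((1 + A) * (l * (l * exp l))) ≤ ∫ y in (0 : ℝ)..1, Z1 u v δ l (-r, y) := by
    have := intervalIntegral.integral_mono_on zero_le_one
      (intervalIntegrable_const (c := -((1 + A) * (l * (l * exp l)))))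
      (vt (z1.continuousOn.mono hR) (-r) ⟨le_rfl, hrr⟩) fun τ hτ => by
        simpa [Z1, hlr] using sd (-r) ⟨le_rfl, hrr⟩ τ hτ
    simpa using this
  have cq : ContinuousOn (fun x => (‖u (x, 0)‖ ^ 2 + ‖v (x, 0)‖ ^ 2) ^ q) (Icc (-r) r) :=
    (hz (g := fun p => ‖u p‖ ^ 2 + ‖v p‖ ^ 2) (((hu.continuousOn.mono hR).norm.pow 2).add
      ((hv.continuousOn.mono hR).norm.pow 2)) 0 ⟨le_rfl, zero_le_one⟩).rpow_const
      fun _ _ => Or.inr hq.le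
  have i2 := cq.intervalIntegrable_of_Icc (μ := volume) hrr
  have i3 : IntervalIntegrable (fun x => log s * (l * cos (l * x))) volume (-r) r :=
    Continuous.intervalIntegrable (by fun_prop) _ _
  have k5 := intervalIntegral.integral_mono_on hrr
    (((hz (z2.continuousOn.mono hR) 0 ⟨le_rfl, zero_le_one⟩).intervalIntegrable_of_Icc
      hrr).const_mul (-(2 * q)))
    (i3.add ((i2.add (intervalIntegrable_const (c := s / π))).const_mul (l / s))) fun x hx => by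
      have hD := DD_pos (u := u) (v := v) hδ (x, 0)
      have a : DD u v δ (x, 0) ^ q ≤ (‖u (x, 0)‖ ^ 2 + ‖v (x, 0)‖ ^ 2) ^ q + s / π := by
        rw [DD_eq, ← hδq]; exact Real.rpow_add_le_add_rpow (by positivity) hδ.le hq.le hq1
      have b := Real.log_le_sub_one_of_pos (show 0 < DD u v δ (x, 0) ^ q / s by positivity)
      rw [Real.log_div (by positivity) hs.ne', Real.log_rpow hD] at b
      have c0 : 0 ≤ l * cos (l * x) := mul_nonneg hl.le (hcos x hx)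
      have c1 : l * cos (l * x) ≤ l := mul_le_of_le_one_right hl.le (cos_le_one _)
      have d := mul_le_mul_of_nonneg_right (show q * log (DD u v δ (x, 0)) ≤
        log s + DD u v δ (x, 0) ^ q / s by linarith) c0
      have e : DD u v δ (x, 0) ^ q / s * (l * cos (l * x)) ≤
          l / s * ((‖u (x, 0)‖ ^ 2 + ‖v (x, 0)‖ ^ 2) ^ q + s / π) := by
        rw [mul_comm (l / s), div_mul_eq_mul_div, mul_div_assoc]
        exact mul_le_mul a (div_le_div_of_nonneg_right c1 hs.le) (by positivity) (by positivity)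
      simp only [Z2, mul_zero, Real.sinh_zero, Real.cosh_zero]
      linarith
  have k6 : ∫ x in (-r)..r, l * cos (l * x) = 2 := by
    rw [intervalIntegral.integral_const_mul, intervalIntegral.mul_integral_comp_mul_left,
      integral_cos, mul_neg, hlr, sin_neg, sin_pi_div_two]
    norm_num
  rw [intervalIntegral.integral_add i3 ((i2.add intervalIntegrable_const).const_mul _),
    intervalIntegral.integral_const_mul, intervalIntegral.integral_const_mul, k6,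
    intervalIntegral.integral_const_mul, intervalIntegral.integral_add i2 intervalIntegrable_const,
    intervalIntegral.integral_const, smul_eq_mul, hs', mul_add] at k5
  have k7 : l / s * ((r - -r) * (s / π)) = 1 := by
    field_simp; linarith
  have k8 : ∫ x in (-r)..r, Z2 u v δ l (x, 0) ≤ C := by linarith
  have k9 := mul_le_mul_of_nonneg_left k8 hq.le
  rw [div_le_iff₀ hl]
  have : 1 ≤ l / s * ∫ x in (-r)..r, (‖u (x, 0)‖ ^ 2 + ‖v (x, 0)‖ ^ 2) ^ q := by linarith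
  rw [div_mul_eq_mul_div, one_le_div hs] at this
  linarith

end Pool.Agent.RD7
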